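import Pool.Agent.H134.Dg.Face

/-!
# Linear algebra of bad edges
-/

set_option autoImplicit false
set_option linter.unusedSimpArgs false

namespace Pool.Agent.H134.Dg

theorem eq_zero_of_lin {w a p q : Pt} (hpq : det a p q ≠ 0) (h1 : lin w a p = 0)
    (h2 : lin w a q = 0) : w = 0 := by
  have e1 : det a p q * w.1 = 0 := by
    have : det a p q * w.1 = (q.2 - a.2) * lin w a p - (p.2 - a.2) * lin w a q := by
      simp only [det, lin]; ring
    rw [this, h1, h2]; ring
  have e2 : det a p q * w.2 = 0 := by
    have : det a p q * w.2 = (p.1 - a.1) * lin w a q - (q.1 - a.1) * lin w a p := by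
      simp only [det, lin]; ring
    rw [this, h1, h2]; ring
  ext
  · exact (mul_eq_zero.1 e1).resolve_left hpq
  · exact (mul_eq_zero.1 e2).resolve_left hpq

theorem lin_add_neg {w a p q b : Pt} (hpq : det a p q ≠ 0) (h1 : lin w a p ≤ 0)
    (h2 : lin w a q ≤ 0) (hb : 0 < lin w a b) : lin w a p + lin w a q < 0 := by
  rcases eq_or_lt_of_le h1 with e1 | e1
  · rcases eq_or_lt_of_le h2 with e2 | e2
    · have := eq_zero_of_lin hpq e1 e2
      rw [this] at hb
      simp [lin] at hb
    · linarith
  · linarith

/-- There are no three bad edges at a vertex with a proper angle. -/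
theorem three_bad {a p q b1 b2 b3 w1 w2 w3 : Pt} (hpq : det a p q ≠ 0)
    (p1 : lin w1 a p ≤ 0) (p2 : lin w2 a p ≤ 0) (p3 : lin w3 a p ≤ 0)
    (q1 : lin w1 a q ≤ 0) (q2 : lin w2 a q ≤ 0) (q3 : lin w3 a q ≤ 0)
    (d1 : 0 < lin w1 a b1) (d2 : 0 < lin w2 a b2) (d3 : 0 < lin w3 a b3)
    (h12 : lin w1 a b2 ≤ 0) (h13 : lin w1 a b3 ≤ 0)
    (h21 : lin w2 a b1 ≤ 0) (h23 : lin w2 a b3 ≤ 0)
    (h31 : lin w3 a b1 ≤ 0) (h32 : lin w3 a b2 ≤ 0) : False := by
  have X1 := lin_add_neg hpq p1 q1 d1
  have X2 := lin_add_neg hpq p2 q2 d2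
  have X3 := lin_add_neg hpq p3 q3 d3
  have id : ∀ z, (w2.1 * w3.2 - w2.2 * w3.1) * lin w1 a z +
      (w3.1 * w1.2 - w3.2 * w1.1) * lin w2 a z + (w1.1 * w2.2 - w1.2 * w2.1) * lin w3 a z = 0 := by
    intro z; simp only [lin]; ring
  have id2 : ∀ z z', lin w1 a z * lin w2 a z' - lin w2 a z * lin w1 a z' =
      (w1.1 * w2.2 - w1.2 * w2.1) * det a z z' := by
    intro z z'; simp only [lin, det]; ring
  set A := w2.1 * w3.2 - w2.2 * w3.1 with hA
  set B := w3.1 * w1.2 - w3.2 * w1.1 with hB
  set C := w1.1 * w2.2 - w1.2 * w2.1 with hC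
  have i1 := id b1
  have i2 := id b2
  have i3 := id b3
  have iX : A * (lin w1 a p + lin w1 a q) + B * (lin w2 a p + lin w2 a q) +
      C * (lin w3 a p + lin w3 a q) = 0 := by
    have := id p
    have := id q
    linarith
  have iC1 := id2 p b2
  have iC2 := id2 q b2
  set Y1 := lin w1 a p + lin w1 a q with hY1
  set Y2 := lin w2 a p + lin w2 a q with hY2
  set Y3 := lin w3 a p + lin w3 a q with hY3
  have hC0 : C = 0 := by
    rcases lt_trichotomy A 0 with hA0 | hA0 | hA0
    · exfalso
      by_cases hB0 : B ≤ 0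
      · by_cases hC0 : C ≤ 0
        · have := mul_pos_of_neg_of_neg hA0 X1
          have := mul_nonneg_of_nonpos_of_nonpos hB0 X2.le
          have := mul_nonneg_of_nonpos_of_nonpos hC0 X3.le
          linarith
        · push Not at hC0
          have := mul_nonneg_of_nonpos_of_nonpos hA0.le h13
          have := mul_nonneg_of_nonpos_of_nonpos hB0 h23
          have := mul_pos hC0 d3
          linarith
      · push Not at hB0
        by_cases hC0 : C ≤ 0
        · have := mul_nonneg_of_nonpos_of_nonpos hA0.le h12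
          have := mul_nonneg_of_nonpos_of_nonpos hC0 h32
          have := mul_pos hB0 d2
          linarith
        · push Not at hC0
          have := mul_neg_of_neg_of_pos hA0 d1
          have := mul_nonpos_of_nonneg_of_nonpos hB0.le h21
          have := mul_nonpos_of_nonneg_of_nonpos hC0.le h31
          linarith
    · rw [hA0] at iX i2
      rcases lt_trichotomy B 0 with hB0 | hB0 | hB0
      · exfalso
        have k1 := mul_pos_of_neg_of_neg hB0 X2
        have hC0 : 0 < C := by
          by_contra hh; push Not at hh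
          have := mul_nonneg_of_nonpos_of_nonpos hh X3.le
          linarith
        have := mul_neg_of_neg_of_pos hB0 d2
        have := mul_nonpos_of_nonneg_of_nonpos hC0.le h32
        linarith
      · rw [hB0] at iX
        have : C * Y3 = 0 := by linarith
        exact (mul_eq_zero.1 this).resolve_right X3.ne
      · exfalso
        have k1 := mul_neg_of_pos_of_neg hB0 X2
        have hC0 : C < 0 := by
          by_contra hh; push Not at hh
          have := mul_nonpos_of_nonneg_of_nonpos hh X3.le
          linarith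
        have := mul_pos hB0 d2
        have := mul_nonneg_of_nonpos_of_nonpos hC0.le h32
        linarith
    · exfalso
      by_cases hB0 : 0 ≤ B
      · by_cases hC0 : 0 ≤ C
        · have := mul_neg_of_pos_of_neg hA0 X1
          have := mul_nonpos_of_nonneg_of_nonpos hB0 X2.le
          have := mul_nonpos_of_nonneg_of_nonpos hC0 X3.le
          linarith
        · push Not at hC0
          have := mul_nonpos_of_nonneg_of_nonpos hA0.le h13
          have := mul_nonpos_of_nonneg_of_nonpos hB0 h23
          have := mul_neg_of_neg_of_pos hC0 d3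
          linarith
      · push Not at hB0
        by_cases hC0 : 0 ≤ C
        · have := mul_nonpos_of_nonneg_of_nonpos hA0.le h12
          have := mul_nonpos_of_nonneg_of_nonpos hC0 h32
          have := mul_neg_of_neg_of_pos hB0 d2
          linarith
        · push Not at hC0
          have := mul_pos hA0 d1
          have := mul_nonneg_of_nonpos_of_nonpos hB0.le h21
          have := mul_nonneg_of_nonpos_of_nonpos hC0.le h31
          linarith
  rw [hC0] at iC1 iC2
  have k1 : Y1 * lin w2 a b2 - Y2 * lin w1 a b2 = 0 := by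
    rw [hY1, hY2]; linarith
  have k2 := mul_neg_of_neg_of_pos X1 d2
  have k3 := mul_nonneg_of_nonpos_of_nonpos X2.le h12
  linarith

/-- There is no bad edge at a hull vertex with a proper angle. -/
theorem hull_bad {a b c d p q w w0 : Pt} (hbc : 0 < det a b c) (hbd : det a b d < 0)
    (hpq : det a p q ≠ 0) (wb : 0 < lin w a b) (wc : lin w a c ≤ 0) (wd : lin w a d ≤ 0)
    (wp : lin w a p ≤ 0) (wq : lin w a q ≤ 0) (h0 : w0 ≠ 0) (vb : lin w0 a b ≤ 0)
    (vc : lin w0 a c ≤ 0) (vd : lin w0 a d ≤ 0) (vp : lin w0 a p ≤ 0) (vq : lin w0 a q ≤ 0) :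
    False := by
  have id : ∀ w, det a c d * lin w a b + det a d b * lin w a c + det a b c * lin w a d = 0 := by
    intro w; simp only [det, lin]; ring
  have hB : 0 < det a d b := by rw [det_swap']; linarith
  have i1 := id w
  have i2 := id w0
  have k1 : 0 ≤ det a c d := by
    by_contra hh; push Not at hh
    have := mul_neg_of_neg_of_pos hh wb
    have := mul_nonpos_of_nonneg_of_nonpos hB.le wc
    have := mul_nonpos_of_nonneg_of_nonpos hbc.le wd
    linarith
  have m1 := mul_nonpos_of_nonneg_of_nonpos k1 vb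
  have m2 := mul_nonpos_of_nonneg_of_nonpos hB.le vc
  have m3 := mul_nonpos_of_nonneg_of_nonpos hbc.le vd
  have vc0 : lin w0 a c = 0 :=
    (mul_eq_zero.1 (show det a d b * lin w0 a c = 0 by linarith)).resolve_left hB.ne'
  have vd0 : lin w0 a d = 0 :=
    (mul_eq_zero.1 (show det a b c * lin w0 a d = 0 by linarith)).resolve_left hbc.ne'
  have hA : det a c d = 0 := by
    by_contra hne; exact h0 (eq_zero_of_lin hne vc0 vd0)
  rw [hA] at i1
  have m4 := mul_nonpos_of_nonneg_of_nonpos hB.le wc
  have m5 := mul_nonpos_of_nonneg_of_nonpos hbc.le wd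
  have wc0 : lin w a c = 0 :=
    (mul_eq_zero.1 (show det a d b * lin w a c = 0 by linarith)).resolve_left hB.ne'
  have hww : w.1 * w0.2 - w.2 * w0.1 = 0 := by
    have e1 : (w.1 * w0.2 - w.2 * w0.1) * (c.1 - a.1) = w0.2 * lin w a c - w.2 * lin w0 a c := by
      simp only [lin]; ring
    have e2 : (w.1 * w0.2 - w.2 * w0.1) * (c.2 - a.2) = w.1 * lin w0 a c - w0.1 * lin w a c := by
      simp only [lin]; ring
    rw [wc0, vc0] at e1 e2
    by_contra hne
    have c1 : c.1 - a.1 = 0 := (mul_eq_zero.1 (by rw [e1]; ring)).resolve_left hne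
    have c2 : c.2 - a.2 = 0 := (mul_eq_zero.1 (by rw [e2]; ring)).resolve_left hne
    have : det a b c = 0 := by simp only [det, c1, c2]; ring
    linarith
  have zero : ∀ z, lin w a z ≤ 0 → lin w0 a z ≤ 0 → lin w0 a z = 0 := by
    intro z h1 h2
    have e : lin w a b * lin w0 a z - lin w0 a b * lin w a z =
        (w.1 * w0.2 - w.2 * w0.1) * det a b z := by simp only [lin, det]; ring
    rw [hww] at e
    have n1 := mul_nonneg_of_nonpos_of_nonpos vb h1
    have n2 := mul_nonpos_of_nonneg_of_nonpos wb.le h2
    exact (mul_eq_zero.1 (show lin w a b * lin w0 a z = 0 by linarith)).resolve_left wb.ne'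
  exact h0 (eq_zero_of_lin hpq (zero p wp vp) (zero q wq vq))

end Pool.Agent.H134.Dg
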