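import Pool.Agent.H134.Dg.Bad

/-!
# Counting
-/

set_option autoImplicit false
set_option linter.unusedSimpArgs false

open scoped Classical

namespace Pool.Agent.H134.Dg

/-- darts with a vertex strictly on the left -/
noncomputable def Lf (V : Finset Pt) (F : Finset (Pt × Pt)) : Finset (Pt × Pt) :=
  F.filter (fun e => ∃ x ∈ V, 0 < det e.1 e.2 x)

noncomputable def faces (V : Finset Pt) (F : Finset (Pt × Pt)) : Finset (Pt × Pt × Pt) :=
  (V ×ˢ V ×ˢ V).filter (fun t => IsFace V F t.1 t.2.1 t.2.2)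

/-- hull vertices -/
noncomputable def hullV (V : Finset Pt) : Finset Pt :=
  V.filter (fun a => ∃ w : Pt, w ≠ 0 ∧ ∀ x ∈ V, lin w a x ≤ 0)

/-- bad darts -/
noncomputable def badD (V : Finset Pt) (F P : Finset (Pt × Pt)) : Finset (Pt × Pt) :=
  F.filter (fun e => e ∉ P ∧ e ∈ Lf V F ∧ (e.2, e.1) ∈ Lf V F ∧
    ∃ w : Pt, 0 < lin w e.1 e.2 ∧ ∀ x, (e.1, x) ∈ F → x ≠ e.2 → lin w e.1 x ≤ 0)

/-- ordered pairs of nonadjacent vertices whose open segment avoids `P` -/
noncomputable def Nn (V : Finset Pt) (P : Finset (Pt × Pt)) : Finset (Pt × Pt) :=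
  (V ×ˢ V).filter (fun e => e.1 ≠ e.2 ∧ e ∉ P ∧
    ∀ z ∈ openSegment ℝ e.1 e.2, ∀ p q, (p, q) ∈ P → z ∉ segment ℝ p q)

/-- flippable darts -/
noncomputable def Rr (V : Finset Pt) (F P : Finset (Pt × Pt)) : Finset (Pt × Pt) :=
  (F \ P).filter (fun e => ∃ c d, IsFace V F e.1 e.2 c ∧ IsFace V F e.2 e.1 d ∧
    0 < det d e.2 c ∧ 0 < det c e.1 d)

variable {V : Finset Pt} {F P : Finset (Pt × Pt)}

theorem mem_Lf {a b : Pt} : (a, b) ∈ Lf V F ↔ (a, b) ∈ F ∧ ∃ x ∈ V, 0 < det a b x := by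
  simp [Lf]

theorem IsFace.mem_V (h : Fam V F) {a b c : Pt} (f : IsFace V F a b c) :
    a ∈ V ∧ b ∈ V ∧ c ∈ V := ⟨h.mem f.e1, h.mem f.e2, h.mem f.e3⟩

theorem mem_faces (h : Fam V F) {a b c : Pt} : (a, b, c) ∈ faces V F ↔ IsFace V F a b c := by
  simp only [faces, Finset.mem_filter, Finset.mem_product]
  constructor
  · exact fun h => h.2
  · intro f
    have := f.mem_V h
    exact ⟨⟨this.1, this.2.1, this.2.2⟩, f⟩

theorem card_Lf_le (h : Fam V F) : (Lf V F).card ≤ (faces V F).card := by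
  apply Finset.card_le_card_of_surjOn (fun t => (t.1, t.2.1))
  rintro ⟨a, b⟩ hab
  rw [Finset.mem_coe, mem_Lf] at hab
  obtain ⟨hab, x, hx, hpos⟩ := hab
  obtain ⟨c, hc⟩ := h.exists_face hab hx hpos
  exact ⟨(a, b, c), Finset.mem_coe.2 ((mem_faces h).2 hc), rfl⟩

/-- faces whose first vertex is maximal for `g` -/
noncomputable def faces0 (V : Finset Pt) (F : Finset (Pt × Pt)) (g : Pt → ℝ) :
    Finset (Pt × Pt × Pt) :=
  (faces V F).filter (fun t => g t.2.1 < g t.1 ∧ g t.2.2 < g t.1)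

theorem mem_faces0 (h : Fam V F) {g : Pt → ℝ} {a b c : Pt} :
    (a, b, c) ∈ faces0 V F g ↔ IsFace V F a b c ∧ g b < g a ∧ g c < g a := by
  simp only [faces0, Finset.mem_filter, mem_faces h]

theorem card_faces_le (h : Fam V F) (g : Pt → ℝ) (hg : ∀ x ∈ V, ∀ y ∈ V, g x = g y → x = y) :
    (faces V F).card ≤ 3 * (faces0 V F g).card := by
  have hsub : faces V F ⊆ faces0 V F g ∪ (faces0 V F g).image (fun t => (t.2.2, t.1, t.2.1)) ∪
      (faces0 V F g).image (fun t => (t.2.1, t.2.2, t.1)) := by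
    rintro ⟨a, b, c⟩ hf
    rw [mem_faces h] at hf
    obtain ⟨ha, hb, hc⟩ := hf.mem_V h
    have hab : g a ≠ g b := fun e => h.ne hf.e1 (hg a ha b hb e)
    have hbc : g b ≠ g c := fun e => h.ne hf.e2 (hg b hb c hc e)
    have hca : g c ≠ g a := fun e => h.ne hf.e3 (hg c hc a ha e)
    rw [Finset.mem_union, Finset.mem_union]
    by_cases h1 : g b < g a
    · by_cases h2 : g c < g a
      · left; left; exact (mem_faces0 h).2 ⟨hf, h1, h2⟩
      · have h3 : g a < g c := lt_of_le_of_ne (not_lt.1 h2) hca.symm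
        right
        exact Finset.mem_image.2 ⟨(c, a, b), (mem_faces0 h).2 ⟨hf.rot.rot, h3, by linarith⟩, rfl⟩
    · have h3 : g a < g b := lt_of_le_of_ne (not_lt.1 h1) hab
      by_cases h2 : g c < g b
      · left; right
        exact Finset.mem_image.2 ⟨(b, c, a), (mem_faces0 h).2 ⟨hf.rot, h2, h3⟩, rfl⟩
      · have h4 : g b < g c := lt_of_le_of_ne (not_lt.1 h2) hbc
        right
        exact Finset.mem_image.2 ⟨(c, a, b), (mem_faces0 h).2 ⟨hf.rot.rot, by linarith, h4⟩, rfl⟩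
  have h1 := Finset.card_le_card hsub
  have h2 := Finset.card_union_le (faces0 V F g ∪
    (faces0 V F g).image (fun t => (t.2.2, t.1, t.2.1)))
      ((faces0 V F g).image (fun t => (t.2.1, t.2.2, t.1)))
  have h3 := Finset.card_union_le (faces0 V F g)
    ((faces0 V F g).image (fun t => (t.2.2, t.1, t.2.1)))
  have h4 : ((faces0 V F g).image (fun t : Pt × Pt × Pt => (t.2.2, t.1, t.2.1))).card ≤
    (faces0 V F g).card := Finset.card_image_le
  have h5 : ((faces0 V F g).image (fun t : Pt × Pt × Pt => (t.2.1, t.2.2, t.1))).card ≤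
    (faces0 V F g).card := Finset.card_image_le
  omega

theorem exists_generic (V : Finset Pt) :
    ∃ ε : ℝ, ∀ x ∈ V, ∀ y ∈ V, x.1 + ε * x.2 = y.1 + ε * y.2 → x = y := by
  obtain ⟨ε, hε⟩ := Infinite.exists_notMem_finset
    ((V ×ˢ V).image (fun e : Pt × Pt => (e.2.1 - e.1.1) / (e.1.2 - e.2.2)))
  refine ⟨ε, ?_⟩
  intro x hx y hy e
  by_cases h2 : x.2 = y.2
  · ext
    · rw [h2] at e; linarith
    · exact h2
  · exfalso
    apply hε
    refine Finset.mem_image.2 ⟨(x, y), Finset.mem_product.2 ⟨hx, hy⟩, ?_⟩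
    have : x.2 - y.2 ≠ 0 := sub_ne_zero.2 h2
    simp only
    field_simp
    linarith

/-- darts which decrease `g` -/
noncomputable def Gd (F : Finset (Pt × Pt)) (g : Pt → ℝ) : Finset (Pt × Pt) :=
  F.filter (fun e => g e.2 < g e.1)

theorem card_Gd_le (h : Fam V F) (g : Pt → ℝ) : 2 * (Gd F g).card ≤ F.card := by
  have hdis : Disjoint (Gd F g) ((Gd F g).image Prod.swap) := by
    rw [Finset.disjoint_left]
    rintro ⟨a, b⟩ h1 h2
    obtain ⟨⟨c, d⟩, h3, h4⟩ := Finset.mem_image.1 h2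
    simp only [Gd, Finset.mem_filter] at h1 h3
    simp only [Prod.swap, Prod.mk.injEq] at h4
    obtain ⟨rfl, rfl⟩ := h4
    linarith
  have hsub : Gd F g ∪ (Gd F g).image Prod.swap ⊆ F := by
    intro e he
    rcases Finset.mem_union.1 he with h1 | h1
    · exact (Finset.mem_filter.1 h1).1
    · obtain ⟨⟨c, d⟩, h3, h4⟩ := Finset.mem_image.1 h1
      rw [← h4]
      exact h.symm (Finset.mem_filter.1 h3).1
  have h1 := Finset.card_le_card hsub
  rw [Finset.card_union_of_disjoint hdis,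
    Finset.card_image_of_injective _ Prod.swap_injective] at h1
  omega

/-- the extreme decreasing dart at `v` -/
theorem exists_extreme (h : Fam V F) {ε : ℝ} {v x : Pt} (hv : v ∈ V) (hx : x ∈ V)
    (hlt : x.1 + ε * x.2 < v.1 + ε * v.2) :
    ∃ p, (v, p) ∈ F ∧ p.1 + ε * p.2 < v.1 + ε * v.2 ∧
      ∀ q, (v, q) ∈ F → q.1 + ε * q.2 < v.1 + ε * v.2 → det v p q ≤ 0 := by
  obtain ⟨x1, hx1, hx1pos⟩ := h.lemmaS (w := (-1, -ε)) hv hx (by
    simp only [lin]; linarith)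
  simp only [lin] at hx1pos
  obtain ⟨p, hp, hmax⟩ := Finset.exists_max_image
    (V.filter (fun z => (v, z) ∈ F ∧ z.1 + ε * z.2 < v.1 + ε * v.2))
    (fun z => (z.2 - v.2) / ((z.1 + ε * z.2) - (v.1 + ε * v.2)))
    ⟨x1, Finset.mem_filter.2 ⟨h.mem' hx1, hx1, by linarith⟩⟩
  rw [Finset.mem_filter] at hp
  obtain ⟨hpV, hvp, hpg⟩ := hp
  refine ⟨p, hvp, hpg, ?_⟩
  intro q hq hqg
  have h1 := hmax q (Finset.mem_filter.2 ⟨h.mem' hq, hq, hqg⟩)
  rw [div_le_iff_of_neg (by linarith), div_mul_eq_mul_div, div_le_iff_of_neg (by linarith)] at h1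
  have h2 : det v p q = ((p.1 + ε * p.2) - (v.1 + ε * v.2)) * (q.2 - v.2) -
      (p.2 - v.2) * ((q.1 + ε * q.2) - (v.1 + ε * v.2)) := by
    simp only [det]; ring
  rw [h2]
  linarith

theorem card_faces0_le (h : Fam V F) (hV : V.Nonempty) {ε : ℝ}
    (hε : ∀ x ∈ V, ∀ y ∈ V, x.1 + ε * x.2 = y.1 + ε * y.2 → x = y) :
    (faces0 V F (fun z => z.1 + ε * z.2)).card + V.card ≤
      (Gd F (fun z => z.1 + ε * z.2)).card + 1 := by
  obtain ⟨vm, hvm, hmin⟩ := Finset.exists_min_image V (fun z => z.1 + ε * z.2) hV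
  have hex : ∀ v ∈ V.erase vm, ∃ p, (v, p) ∈ F ∧ p.1 + ε * p.2 < v.1 + ε * v.2 ∧
      ∀ q, (v, q) ∈ F → q.1 + ε * q.2 < v.1 + ε * v.2 → det v p q ≤ 0 := by
    intro v hv
    obtain ⟨hne, hv⟩ := Finset.mem_erase.1 hv
    apply exists_extreme h hv hvm
    apply lt_of_le_of_ne (hmin v hv)
    intro e
    exact hne (hε _ hvm _ hv e).symm
  choose! p hp1 hp2 hp3 using hex
  set X := (V.erase vm).image (fun v => (v, p v)) with hX
  have hXcard : X.card = V.card - 1 := by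
    rw [hX, Finset.card_image_of_injOn, Finset.card_erase_of_mem hvm]
    intro a _ b _ e
    exact (Prod.mk.inj e).1
  have hXG : X ⊆ Gd F (fun z => z.1 + ε * z.2) := by
    intro e he
    obtain ⟨v, hv, rfl⟩ := Finset.mem_image.1 he
    exact Finset.mem_filter.2 ⟨hp1 v hv, hp2 v hv⟩
  have hle : (faces0 V F (fun z => z.1 + ε * z.2)).card ≤
      (Gd F (fun z => z.1 + ε * z.2) \ X).card := by
    apply Finset.card_le_card_of_injOn (fun t => (t.1, t.2.1))
    · rintro ⟨a, b, c⟩ hf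
      rw [Finset.mem_coe, mem_faces0 h] at hf
      obtain ⟨f, g1, g2⟩ := hf
      rw [Finset.mem_coe, Finset.mem_sdiff]
      refine ⟨Finset.mem_filter.2 ⟨f.e1, g1⟩, ?_⟩
      intro hx
      obtain ⟨v, hv, e⟩ := Finset.mem_image.1 hx
      obtain ⟨rfl, e2⟩ := Prod.mk.inj e
      have := hp3 v hv c (h.symm f.e3) g2
      rw [e2] at this
      have := f.pos
      linarith
    · rintro ⟨a, b, c⟩ hf ⟨a', b', c'⟩ hf' e
      rw [Finset.mem_coe, mem_faces0 h] at hf hf'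
      obtain ⟨rfl, rfl⟩ := Prod.mk.inj e
      rw [h.face_unique hf.1 hf'.1]
  have h1 := Finset.card_sdiff_add_card_eq_card hXG
  have h2 : 0 < V.card := Finset.card_pos.2 hV
  omega

theorem euler (h : Fam V F) (hV : V.Nonempty) :
    2 * (Lf V F).card + 6 * V.card ≤ 3 * F.card + 6 := by
  obtain ⟨ε, hε⟩ := exists_generic V
  have h1 := card_Lf_le h
  have h2 := card_faces_le h (fun z => z.1 + ε * z.2) hε
  have h3 := card_faces0_le h hV hε
  have h4 := card_Gd_le h (fun z => z.1 + ε * z.2)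
  omega

/-! ## the hull -/

theorem hull_le (h : Fam V F)
    (hnc : ∀ a ∈ V, ∀ b ∈ V, a ≠ b → ∃ x ∈ V, det a b x ≠ 0) :
    (F \ Lf V F).card ≤ (hullV V).card := by
  have hmem : ∀ a b, (a, b) ∈ F \ Lf V F → (a, b) ∈ F ∧ ∀ x ∈ V, det a b x ≤ 0 := by
    intro a b hab
    rw [Finset.mem_sdiff, mem_Lf] at hab
    refine ⟨hab.1, fun x hx => ?_⟩
    by_contra hh
    push Not at hh
    exact hab.2 ⟨hab.1, x, hx, hh⟩
  apply Finset.card_le_card_of_injOn (fun e => e.1)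
  · rintro ⟨a, b⟩ hab
    obtain ⟨h1, h2⟩ := hmem a b (Finset.mem_coe.1 hab)
    refine Finset.mem_coe.2 (Finset.mem_filter.2 ⟨h.mem h1, perp a b, ?_, ?_⟩)
    · intro e
      apply h.ne h1
      have e1 := congrArg Prod.fst e
      have e2 := congrArg Prod.snd e
      simp only [perp, Prod.fst_zero, Prod.snd_zero] at e1 e2
      ext <;> linarith
    · intro x hx
      rw [lin_perp]; exact h2 x hx
  · rintro ⟨a, b⟩ hab ⟨a', b'⟩ hab' e
    simp only at e
    subst e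
    obtain ⟨h1, h2⟩ := hmem a b (Finset.mem_coe.1 hab)
    obtain ⟨h1', h2'⟩ := hmem a b' (Finset.mem_coe.1 hab')
    have k1 := h2 b' (h.mem' h1')
    have k2 := h2' b (h.mem' h1)
    rw [det_swap'] at k2
    have k3 : det a b b' = 0 := by linarith
    obtain ⟨s, hs⟩ := exists_lerp_of_det_eq_zero (h.ne h1) k3
    have hdet : ∀ x, det a b' x = s * det a b x := by
      intro x; rw [hs]; exact det_lerp_l a b x s
    rcases lt_trichotomy s 0 with hs0 | hs0 | hs0
    · exfalso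
      obtain ⟨x, hx, hne⟩ := hnc a (h.mem h1) b (h.mem' h1) (h.ne h1)
      have m1 := h2 x hx
      have m2 := h2' x hx
      rw [hdet] at m2
      have m3 := mul_pos_of_neg_of_neg hs0 (lt_of_le_of_ne m1 hne)
      linarith
    · exfalso
      rw [hs0, lerp_zero] at hs
      exact h.ne h1' hs.symm
    · have : b = b' := by
        apply h.sameRay (w := (b.1 - a.1, b.2 - a.2)) h1 h1' k3
        · simp only [lin]
          have hne := h.ne h1
          by_contra hcon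
          apply hne
          ext
          · nlinarith [sq_nonneg (b.1 - a.1), sq_nonneg (b.2 - a.2)]
          · nlinarith [sq_nonneg (b.1 - a.1), sq_nonneg (b.2 - a.2)]
        · rw [hs, aff_lin]
          simp only [lin_self, mul_zero, zero_add]
          apply mul_pos hs0
          simp only [lin]
          have hne := h.ne h1
          by_contra hcon
          apply hne
          ext
          · nlinarith [sq_nonneg (b.1 - a.1), sq_nonneg (b.2 - a.2)]
          · nlinarith [sq_nonneg (b.1 - a.1), sq_nonneg (b.2 - a.2)]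
      rw [this]

theorem bad_le (h : Fam V F) (hPF : P ⊆ F)
    (hP : ∀ a ∈ V, ∃ p q, (a, p) ∈ P ∧ (a, q) ∈ P ∧ det a p q ≠ 0) :
    (badD V F P).card ≤ 2 * (V \ hullV V).card := by
  apply Finset.card_le_mul_card_image_of_maps_to (f := fun e => e.1)
  · rintro ⟨a, b⟩ he
    simp only [badD, Finset.mem_filter, mem_Lf] at he
    obtain ⟨hF, hnP, ⟨_, x, hx, hxp⟩, ⟨_, y, hy, hyp⟩, w, hw, hw'⟩ := he
    rw [Finset.mem_sdiff]
    refine ⟨h.mem hF, ?_⟩
    intro hh
    obtain ⟨_, w0, hw0, hw0'⟩ := Finset.mem_filter.1 hh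
    obtain ⟨c, hc⟩ := h.exists_face hF hx hxp
    obtain ⟨d, hd⟩ := h.exists_face (h.symm hF) hy hyp
    obtain ⟨p, q, hp, hq, hpq⟩ := hP a (h.mem hF)
    have hcb : c ≠ b := (h.ne hc.e2).symm
    have hdb : d ≠ b := h.ne hd.e3
    have hpb : p ≠ b := by rintro rfl; exact hnP hp
    have hqb : q ≠ b := by rintro rfl; exact hnP hq
    have hd2 := hd.pos
    rw [det_swap] at hd2
    exact hull_bad hc.pos (by linarith) hpq hw (hw' c (h.symm hc.e3) hcb)
      (hw' d hd.e2 hdb) (hw' p (hPF hp) hpb) (hw' q (hPF hq) hqb) hw0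
      (hw0' b (h.mem' hF)) (hw0' c (h.mem' (h.symm hc.e3))) (hw0' d (h.mem' hd.e2))
      (hw0' p (h.mem' (hPF hp))) (hw0' q (h.mem' (hPF hq)))
  · intro a ha
    by_contra hcon
    push Not at hcon
    obtain ⟨⟨a1, b1⟩, ⟨a2, b2⟩, ⟨a3, b3⟩, h1, h2, h3, h12, h13, h23⟩ :=
      Finset.two_lt_card_iff.1 hcon
    simp only [badD, Finset.mem_filter] at h1 h2 h3
    obtain ⟨⟨hF1, hn1, -, -, w1, hw1, hw1'⟩, e1⟩ := h1
    obtain ⟨⟨hF2, hn2, -, -, w2, hw2, hw2'⟩, e2⟩ := h2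
    obtain ⟨⟨hF3, hn3, -, -, w3, hw3, hw3'⟩, e3⟩ := h3
    subst e1 e2 e3
    have hb12 : b1 ≠ b2 := fun e => h12 (by rw [e])
    have hb13 : b1 ≠ b3 := fun e => h13 (by rw [e])
    have hb23 : b2 ≠ b3 := fun e => h23 (by rw [e])
    obtain ⟨p, q, hp, hq, hpq⟩ := hP a3 (h.mem hF3)
    have np : ∀ b, (a3, b) ∉ P → p ≠ b := by rintro b hb rfl; exact hb hp
    have nq : ∀ b, (a3, b) ∉ P → q ≠ b := by rintro b hb rfl; exact hb hq
    exact three_bad hpq (hw1' p (hPF hp) (np _ hn1)) (hw2' p (hPF hp) (np _ hn2))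
      (hw3' p (hPF hp) (np _ hn3)) (hw1' q (hPF hq) (nq _ hn1)) (hw2' q (hPF hq) (nq _ hn2))
      (hw3' q (hPF hq) (nq _ hn3)) hw1 hw2 hw3 (hw1' b2 hF2 hb12.symm) (hw1' b3 hF3 hb13.symm)
      (hw2' b1 hF1 hb12) (hw2' b3 hF3 hb23.symm) (hw3' b1 hF1 hb13) (hw3' b2 hF2 hb23)

end Pool.Agent.H134.Dg
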