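import Pool.Agent.H134.Dg.LemS

/-!
# Faces, flips and bad edges
-/

set_option autoImplicit false
set_option linter.unusedSimpArgs false

namespace Pool.Agent.H134.Dg

/-- a counterclockwise empty triangle of edges -/
structure IsFace (V : Finset Pt) (F : Finset (Pt × Pt)) (a b c : Pt) : Prop where
  pos : 0 < det a b c
  e1 : (a, b) ∈ F
  e2 : (b, c) ∈ F
  e3 : (c, a) ∈ F
  empty : ∀ x ∈ V, 0 ≤ det a b x → 0 ≤ det b c x → 0 ≤ det c a x → x = a ∨ x = b ∨ x = c

/-- the covector with `lin (perp a b) a z = det a b z` -/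
def perp (a b : Pt) : Pt := (-(b.2 - a.2), b.1 - a.1)

theorem lin_perp (a b z : Pt) : lin (perp a b) a z = det a b z := by
  simp only [lin, perp, det]; ring

variable {V : Finset Pt} {F : Finset (Pt × Pt)}

theorem IsFace.rot {a b c : Pt} (f : IsFace V F a b c) : IsFace V F b c a where
  pos := by rw [det_rot a b c]; exact f.pos
  e1 := f.e2
  e2 := f.e3
  e3 := f.e1
  empty := fun x hx h1 h2 h3 => by
    rcases f.empty x hx h3 h1 h2 with h | h | h
    · exact Or.inr (Or.inr h)
    · exact Or.inl h
    · exact Or.inr (Or.inl h)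

namespace Fam

/-- every edge has a face on each side which contains a vertex -/
theorem exists_face (h : Fam V F) {a b x : Pt} (hab : (a, b) ∈ F) (hx : x ∈ V)
    (hpos : 0 < det a b x) : ∃ c, IsFace V F a b c := by
  classical
  obtain ⟨x1, hx1, hx1pos⟩ := h.lemmaS (w := perp a b) (h.mem hab) hx (by rwa [lin_perp])
  rw [lin_perp] at hx1pos
  obtain ⟨c, hc, hmax⟩ := Finset.exists_max_image
    (V.filter (fun z => (a, z) ∈ F ∧ 0 < det a b z))
    (fun z => ((b.1 - a.1) * (z.1 - a.1) + (b.2 - a.2) * (z.2 - a.2)) / det a b z)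
    ⟨x1, Finset.mem_filter.2 ⟨h.mem' hx1, hx1, hx1pos⟩⟩
  rw [Finset.mem_filter] at hc
  obtain ⟨hcV, hac, hcpos⟩ := hc
  have hcone : ∀ x, (a, x) ∈ F → ¬ (0 < det a b x ∧ 0 < det c a x) := by
    rintro x hax ⟨k1, k2⟩
    have h1 := hmax x (Finset.mem_filter.2 ⟨h.mem' hax, hax, k1⟩)
    rw [div_le_div_iff₀ k1 hcpos] at h1
    have h2 : ((b.1 - a.1) ^ 2 + (b.2 - a.2) ^ 2) * det c a x =
        ((b.1 - a.1) * (x.1 - a.1) + (b.2 - a.2) * (x.2 - a.2)) * det a b c -
        ((b.1 - a.1) * (c.1 - a.1) + (b.2 - a.2) * (c.2 - a.2)) * det a b x := by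
      simp only [det]; ring
    have h3 : 0 < (b.1 - a.1) ^ 2 + (b.2 - a.2) ^ 2 := by
      by_contra hcon
      push Not at hcon
      have e1 : b.1 - a.1 = 0 := by nlinarith [sq_nonneg (b.1 - a.1), sq_nonneg (b.2 - a.2)]
      have e2 : b.2 - a.2 = 0 := by nlinarith [sq_nonneg (b.1 - a.1), sq_nonneg (b.2 - a.2)]
      simp only [det, e1, e2] at hcpos
      simp at hcpos
    have h4 : 0 < ((b.1 - a.1) ^ 2 + (b.2 - a.2) ^ 2) * det c a x := by positivity
    linarith
  obtain ⟨hbc, hemp⟩ := h.lemmaN hab hac hcpos hcone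
  exact ⟨c, hcpos, hab, hbc, h.symm hac, hemp⟩

theorem faceCone (h : Fam V F) {a b c x : Pt} (f : IsFace V F a b c) (hax : (a, x) ∈ F) :
    ¬ (0 < det a b x ∧ 0 < det c a x) := by
  rintro ⟨k1, k2⟩
  by_cases k3 : 0 ≤ det b c x
  · rcases f.empty x (h.mem' hax) k1.le k3 k2.le with rfl | rfl | rfl
    · simp at k1
    · simp at k1
    · simp at k2
  · push Not at k3
    have hD := f.pos
    have c1 : det a x b * det a x c < 0 := by
      rw [det_swap' a b x, ← det_rot' a x c]
      nlinarith
    have c2 : det b c a * det b c x < 0 := by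
      rw [det_rot a b c]; nlinarith
    obtain ⟨z, z1, z2⟩ := cross_os c1 c2
    rcases h.nc hax f.e2 z1 z2 with ⟨rfl, rfl⟩ | ⟨rfl, rfl⟩
    · simp at hD
    · simp at hD

theorem sameRay (h : Fam V F) {a x y w : Pt} (hx : (a, x) ∈ F) (hy : (a, y) ∈ F)
    (hd : det a x y = 0) (wx : 0 < lin w a x) (wy : 0 < lin w a y) : x = y := by
  obtain ⟨s, rfl⟩ := exists_lerp_of_det_eq_zero (h.ne hx) hd
  have e : lin w a (lerp a x s) = s * lin w a x := by rw [aff_lin]; simp
  rw [e] at wy
  have s0 : 0 < s := by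
    by_contra hs; push Not at hs; nlinarith
  rcases lt_trichotomy s 1 with h1 | h1 | h1
  · exact absurd (lerp_os s0 h1) (h.prim hx (h.mem' hy))
  · rw [h1, lerp_one]
  · exfalso
    apply h.prim hy (h.mem' hx)
    refine mem_os.2 ⟨1 / s, by positivity, by rw [div_lt_one s0]; exact h1, ?_⟩
    rw [lerp_left]
    have : 1 / s * s = 1 := by field_simp
    rw [this, lerp_one]

theorem face_unique (h : Fam V F) {a b c c' : Pt} (f : IsFace V F a b c)
    (f' : IsFace V F a b c') : c = c' := by
  have h1 := h.faceCone f (h.symm f'.e3)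
  have h2 := h.faceCone f' (h.symm f.e3)
  have p1 := f.pos
  have p2 := f'.pos
  have k1 : det c a c' ≤ 0 := by
    by_contra hh; push Not at hh; exact h1 ⟨p2, hh⟩
  have k2 : det c' a c ≤ 0 := by
    by_contra hh; push Not at hh; exact h2 ⟨p1, hh⟩
  have e : det c' a c = - det c a c' := by simp only [det]; ring
  have e2 : det a c c' = - det c a c' := by simp only [det]; ring
  apply h.sameRay (w := perp a b) (h.symm f.e3) (h.symm f'.e3)
  · rw [e2]; linarith
  · rw [lin_perp]; exact p1
  · rw [lin_perp]; exact p2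

theorem faceInterior (h : Fam V F) {a b c p q y : Pt} (f : IsFace V F a b c)
    (hpq : (p, q) ∈ F) (hy : y ∈ segment ℝ p q) (y1 : 0 < det a b y) (y2 : 0 < det b c y)
    (y3 : 0 < det c a y) : False := by
  have noV : ∀ x ∈ V, 0 < det a b x → 0 < det b c x → 0 < det c a x → False := by
    intro x hx k1 k2 k3
    rcases f.empty x hx k1.le k2.le k3.le with rfl | rfl | rfl
    · simp at k1
    · simp at k1
    · simp at k2
  obtain ⟨t, t0, t1, rfl⟩ := mem_sg.1 hy
  have t0' : 0 < t := by
    rcases eq_or_lt_of_le t0 with e | e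
    · exfalso; rw [← e, lerp_zero] at y1 y2 y3
      exact noV p (h.mem hpq) y1 y2 y3
    · exact e
  have t1' : t < 1 := by
    rcases eq_or_lt_of_le t1 with e | e
    · exfalso; rw [e, lerp_one] at y1 y2 y3
      exact noV q (h.mem' hpq) y1 y2 y3
    · exact e
  have corner : ∀ a b c, IsFace V F a b c → 0 < det a b (lerp p q t) →
      0 < det c a (lerp p q t) → p ≠ a := by
    rintro a b c f k1 k3 rfl
    rw [aff_det] at k1 k3
    simp only [det_self_left, det_self_right, mul_zero, zero_add] at k1 k3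
    exact h.faceCone f hpq ⟨(mul_pos_iff_of_pos_left t0').1 k1,
      (mul_pos_iff_of_pos_left t0').1 k3⟩
  have hpa : p ≠ a := corner a b c f y1 y3
  have hpb : p ≠ b := corner b c a f.rot y2 y1
  have hpc : p ≠ c := corner c a b f.rot.rot y3 y2
  have hout : det a b p < 0 ∨ det b c p < 0 ∨ det c a p < 0 := by
    by_contra hcon
    push Not at hcon
    rcases f.empty p (h.mem hpq) hcon.1 hcon.2.1 hcon.2.2 with e | e | e
    · exact hpa e
    · exact hpb e
    · exact hpc e
  obtain ⟨τ, τ0, τ1, k1, k2, k3, k4⟩ := exit3 y1 y2 y3 hout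
  rw [← aff_det, lerp_to_left] at k1 k2 k3
  rw [← aff_det, ← aff_det, ← aff_det, lerp_to_left] at k4
  have s0 : 0 < (1 - τ) * t := mul_pos (by linarith) t0'
  have s1 : (1 - τ) * t < 1 := by nlinarith
  set z := lerp p q ((1 - τ) * t) with hz
  have hzo : z ∈ openSegment ℝ p q := lerp_os s0 s1
  have side : ∀ a b c, IsFace V F a b c → p ≠ a → p ≠ b → 0 ≤ det b c z → 0 ≤ det c a z →
      det a b z = 0 → False := by
    intro a b c f hpa hpb m1 m2 m3
    have hD := f.pos
    have hsum := det_sum a b c z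
    have e := on_ab hD.ne' m3
    rcases eq_or_lt_of_le m2 with e2 | e2
    · rw [← e2] at e
      simp only [zero_div, lerp_zero] at e
      exact h.prim hpq (h.mem f.e1) (by rw [← e]; exact hzo)
    · rcases eq_or_lt_of_le m1 with e1 | e1
      · have : det c a z / det a b c = 1 := by rw [div_eq_one_iff_eq hD.ne']; linarith
        rw [this, lerp_one] at e
        exact h.prim hpq (h.mem' f.e1) (by rw [← e]; exact hzo)
      · have hzab : z ∈ openSegment ℝ a b :=
          mem_os.2 ⟨_, div_pos e2 hD, by rw [div_lt_one hD]; linarith, e⟩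
        rcases h.nc f.e1 hpq hzab hzo with ⟨r1, r2⟩ | ⟨r1, r2⟩
        · exact hpa r1
        · exact hpb r1
  rcases k4 with k4 | k4 | k4
  · exact side a b c f hpa hpb k2 k3 k4
  · exact side b c a f.rot hpb hpc k3 k1 k4
  · exact side c a b f.rot.rot hpc hpa k1 k2 k4

/-- the diagonal crossing point -/
theorem flip_cross {a b c d : Pt} (f1 : 0 < det a b c) (f2 : 0 < det b a d)
    (g1 : 0 < det d b c) (g2 : 0 < det c a d) :
    ∃ s, 0 < s ∧ s < 1 ∧ lerp c d s ∈ openSegment ℝ a b := by
  have e1 : det b a d = - det a b d := det_swap a b d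
  have c1 : det c d a * det c d b < 0 := by
    have : det c d a = - det c a d := det_swap' c a d
    have : det c d b = det d b c := (det_rot c d b).symm
    nlinarith
  have c2 : det a b c * det a b d < 0 := by nlinarith
  obtain ⟨t, t0, t1, u, u0, u1, e⟩ := cross_point c1 c2
  exact ⟨t, t0, t1, by rw [e]; exact lerp_os u0 u1⟩

/-- the flip of an edge meets no other edge -/
theorem flip_spec (h : Fam V F) {a b c d : Pt} (f1 : IsFace V F a b c) (f2 : IsFace V F b a d)
    (g1 : 0 < det d b c) (g2 : 0 < det c a d) {p q y : Pt} (hpq : (p, q) ∈ F)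
    (hy : y ∈ openSegment ℝ c d) (hy' : y ∈ segment ℝ p q) :
    y ∈ openSegment ℝ a b ∧ ((p = a ∧ q = b) ∨ (p = b ∧ q = a)) := by
  obtain ⟨s, s0, s1, rfl⟩ := mem_os.1 hy
  have p1 := f1.pos
  have p2 := f2.pos
  have e1 : det b a d = - det a b d := det_swap a b d
  obtain ⟨s', s0', s1', hs'⟩ := flip_cross p1 p2 g1 g2
  rcases lt_trichotomy (det a b (lerp c d s)) 0 with hlt | heq | hgt
  · exfalso
    apply h.faceInterior f2 hpq hy'
    · rw [det_swap]; linarith
    · rw [aff_det]; simp only [det_self_right, mul_zero, add_zero]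
      have : det a d c = det c a d := (det_rot' a d c).symm
      rw [this]
      exact mul_pos (by linarith) g2
    · rw [aff_det]; simp only [det_self_left, mul_zero, add_zero]
      exact mul_pos (by linarith) g1
  · have hss : s = s' := by
      have h1 : det a b (lerp c d s') = 0 := by
        obtain ⟨u, u0, u1, e⟩ := mem_os.1 hs'
        rw [e, aff_det]; simp
      rw [aff_det] at heq h1
      have h3 : (s - s') * (det a b c - det a b d) = 0 := by linarith
      have h4 : det a b c - det a b d ≠ 0 := by linarith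
      have := (mul_eq_zero.1 h3).resolve_right h4
      linarith
    rw [← hss] at hs'
    refine ⟨hs', ?_⟩
    obtain ⟨u, u0, u1, e⟩ := mem_sg.1 hy'
    have u0' : 0 < u := by
      rcases eq_or_lt_of_le u0 with e' | e'
      · exfalso; rw [← e', lerp_zero] at e
        exact h.prim f1.e1 (h.mem hpq) (by rw [← e]; exact hs')
      · exact e'
    have u1' : u < 1 := by
      rcases eq_or_lt_of_le u1 with e' | e'
      · exfalso; rw [e', lerp_one] at e
        exact h.prim f1.e1 (h.mem' hpq) (by rw [← e]; exact hs')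
      · exact e'
    exact h.nc f1.e1 hpq hs' (by rw [e]; exact lerp_os u0' u1')
  · exfalso
    apply h.faceInterior f1 hpq hy' hgt
    · rw [aff_det]; simp only [det_self_right, mul_zero, zero_add]
      have : det b c d = det d b c := (det_rot' b c d).symm
      rw [this]; positivity
    · rw [aff_det]; simp only [det_self_left, mul_zero, zero_add]
      positivity

/-- an edge which cannot be flipped is bad at an endpoint -/
theorem bad_of_not_flip (h : Fam V F) {a b c d : Pt} (f1 : IsFace V F a b c)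
    (f2 : IsFace V F b a d) (g : det c a d ≤ 0) :
    ∃ w, 0 < lin w a b ∧ ∀ x, (a, x) ∈ F → x ≠ b → lin w a x ≤ 0 := by
  have p1 := f1.pos
  have p2 := f2.pos
  have e1 : det b a d = - det a b d := det_swap a b d
  have hb : lin (c.2 - d.2, d.1 - c.1) a b = det a b c - det a b d := by
    simp only [lin, det]; ring
  refine ⟨(c.2 - d.2, d.1 - c.1), by rw [hb]; linarith, ?_⟩
  intro x hx hxb
  by_contra hcon
  push Not at hcon
  have hbpos : 0 < lin (c.2 - d.2, d.1 - c.1) a b := by rw [hb]; linarith
  rcases lt_trichotomy (det a b x) 0 with hlt | heq | hgt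
  · -- the face `b a d`, seen from `a`
    have fr : IsFace V F a d b := f2.rot
    have hc := h.faceCone fr hx
    have hbax : 0 < det b a x := by rw [det_swap]; linarith
    have hk : det a d x ≤ 0 := by
      by_contra hh; push Not at hh; exact hc ⟨hh, hbax⟩
    have hid : det b a d * lin (c.2 - d.2, d.1 - c.1) a x =
        det a d x * lin (c.2 - d.2, d.1 - c.1) a b + det b a x * det c a d := by
      simp only [lin, det]; ring
    have h1 : 0 < det b a d * lin (c.2 - d.2, d.1 - c.1) a x := by positivity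
    have h2 : det a d x * lin (c.2 - d.2, d.1 - c.1) a b ≤ 0 :=
      mul_nonpos_of_nonpos_of_nonneg hk hbpos.le
    have h3 : det b a x * det c a d ≤ 0 := mul_nonpos_of_nonneg_of_nonpos hbax.le g
    linarith
  · exact hxb (h.sameRay f1.e1 hx heq hbpos hcon).symm
  · have hc := h.faceCone f1 hx
    have hk : det c a x ≤ 0 := by
      by_contra hh; push Not at hh; exact hc ⟨hgt, hh⟩
    have hid : det a b c * lin (c.2 - d.2, d.1 - c.1) a x =
        det c a x * lin (c.2 - d.2, d.1 - c.1) a b + det a b x * det c a d := by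
      simp only [lin, det]; ring
    have h1 : 0 < det a b c * lin (c.2 - d.2, d.1 - c.1) a x := by positivity
    have h2 : det c a x * lin (c.2 - d.2, d.1 - c.1) a b ≤ 0 :=
      mul_nonpos_of_nonpos_of_nonneg hk hbpos.le
    have h3 : det a b x * det c a d ≤ 0 := mul_nonpos_of_nonneg_of_nonpos hgt.le g
    linarith

end Fam

end Pool.Agent.H134.Dg
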