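import Pool.Agent.H134.Dg.Geo

/-!
# Maximal noncrossing families of primitive segments
-/

set_option autoImplicit false
set_option linter.unusedSimpArgs false

namespace Pool.Agent.H134.Dg

/-- `F` is a maximal noncrossing (symmetric) family of primitive segments with endpoints in `V`. -/
structure Fam (V : Finset Pt) (F : Finset (Pt × Pt)) : Prop where
  mem : ∀ {a b}, (a, b) ∈ F → a ∈ V
  symm : ∀ {a b}, (a, b) ∈ F → (b, a) ∈ F
  ne : ∀ {a b}, (a, b) ∈ F → a ≠ b
  prim : ∀ {a b x}, (a, b) ∈ F → x ∈ V → x ∉ openSegment ℝ a b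
  nc : ∀ {a b c d z}, (a, b) ∈ F → (c, d) ∈ F → z ∈ openSegment ℝ a b →
    z ∈ openSegment ℝ c d → (c = a ∧ d = b) ∨ (c = b ∧ d = a)
  maxl : ∀ {x y}, x ∈ V → y ∈ V → x ≠ y → (∀ z ∈ V, z ∉ openSegment ℝ x y) →
    (∀ a b, (a, b) ∈ F → ∀ z ∈ openSegment ℝ x y, z ∉ openSegment ℝ a b) → (x, y) ∈ F

namespace Fam

variable {V : Finset Pt} {F : Finset (Pt × Pt)}

theorem mem' (h : Fam V F) {a b : Pt} (hab : (a, b) ∈ F) : b ∈ V := h.mem (h.symm hab)

theorem keyK (h : Fam V F) {a b c : Pt} (hab : (a, b) ∈ F) (hac : (a, c) ∈ F)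
    (hD : 0 < det a b c) (hcone : ∀ x, (a, x) ∈ F → ¬ (0 < det a b x ∧ 0 < det c a x))
    {p q : Pt} (hpq : (p, q) ∈ F) {t : ℝ} (t0 : 0 < t) (t1 : t < 1)
    (hb : 0 < det a b (lerp p q t)) (hc : 0 < det c a (lerp p q t))
    (h1 : 0 ≤ det b c (lerp p q t)) (h2 : det b c (lerp p q t) ≤ det b c p)
    (h3 : 0 < det b c (lerp p q t) ∨ det b c (lerp p q t) < det b c p) :
    0 < det a b p ∧ 0 < det c a p := by
  by_contra hcon
  have hcon' : det a b p ≤ 0 ∨ det c a p ≤ 0 := by
    by_contra hh; push Not at hh; exact hcon hh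
  have haV : a ∈ V := h.mem hab
  have hpV : p ∈ V := h.mem hpq
  obtain ⟨τ, τ0, τ1, hτ⟩ := exit2 hb hc hcon'
  rw [← aff_det, ← aff_det] at hτ
  have hy : lerp (lerp p q t) p τ = lerp p q ((1 - τ) * t) := lerp_to_left _ _ _ _
  have hbc : 0 < det b c (lerp (lerp p q t) p τ) := by
    rw [aff_det]
    rcases h3 with h3 | h3
    · nlinarith
    · nlinarith
  have hsum := det_sum a b c (lerp (lerp p q t) p τ)
  rw [hy] at hτ hbc hsum
  set t' := (1 - τ) * t with ht'
  have ht'0 : 0 ≤ t' := mul_nonneg (by linarith) t0.le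
  have ht'1 : t' < 1 := by
    have : t' ≤ t := by rw [ht']; nlinarith
    linarith
  set y' := lerp p q t' with hy'
  -- the point `a` is excluded
  have hya : y' ≠ a := by
    intro e
    rcases eq_or_lt_of_le ht'0 with h0 | h0
    · have hpa : p = a := by rw [← e, hy', ← h0, lerp_zero]
      subst hpa
      apply hcone q hpq
      rw [aff_det] at hb hc
      simp only [det_self_left, det_self_right, mul_zero, zero_add] at hb hc
      exact ⟨(mul_pos_iff_of_pos_left t0).1 hb, (mul_pos_iff_of_pos_left t0).1 hc⟩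
    · exact h.prim hpq haV (mem_os.2 ⟨t', h0, ht'1, e.symm⟩)
  rcases hτ with ⟨e1, e2⟩ | ⟨e1, e2⟩
  · -- on the line `a b`
    have hs : y' = lerp a b (det c a y' / det a b c) := on_ab hD.ne' e1
    have hs1 : det c a y' / det a b c < 1 := by rw [div_lt_one hD]; linarith
    have hs0 : 0 < det c a y' / det a b c := by
      apply div_pos _ hD
      rcases eq_or_lt_of_le e2 with h0 | h0
      · exfalso; apply hya; rw [hs, ← h0]; simp
      · exact h0
    have hyo : y' ∈ openSegment ℝ a b := mem_os.2 ⟨_, hs0, hs1, hs⟩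
    rcases eq_or_lt_of_le ht'0 with h0 | h0
    · have hpy : p = y' := by rw [hy', ← h0, lerp_zero]
      exact h.prim hab hpV (by rw [hpy]; exact hyo)
    · have hyo2 : y' ∈ openSegment ℝ p q := mem_os.2 ⟨t', h0, ht'1, hy'⟩
      rcases h.nc hab hpq hyo hyo2 with ⟨rfl, rfl⟩ | ⟨rfl, rfl⟩
      · rw [aff_det] at hb; simp at hb
      · rw [aff_det] at hb; simp at hb
  · have hs : y' = lerp a c (det a b y' / det a b c) := on_ac hD.ne' e1
    have hs1 : det a b y' / det a b c < 1 := by rw [div_lt_one hD]; linarith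
    have hs0 : 0 < det a b y' / det a b c := by
      apply div_pos _ hD
      rcases eq_or_lt_of_le e2 with h0 | h0
      · exfalso; apply hya; rw [hs, ← h0]; simp
      · exact h0
    have hyo : y' ∈ openSegment ℝ a c := mem_os.2 ⟨_, hs0, hs1, hs⟩
    rcases eq_or_lt_of_le ht'0 with h0 | h0
    · have hpy : p = y' := by rw [hy', ← h0, lerp_zero]
      exact h.prim hac hpV (by rw [hpy]; exact hyo)
    · have hyo2 : y' ∈ openSegment ℝ p q := mem_os.2 ⟨t', h0, ht'1, hy'⟩
      rcases h.nc hac hpq hyo hyo2 with ⟨rfl, rfl⟩ | ⟨rfl, rfl⟩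
      · rw [aff_det] at hc; simp at hc
      · rw [aff_det] at hc; simp at hc

/-- If `a c` is the angularly next edge after `a b`, then `a b c` is a face. -/
theorem lemmaN (h : Fam V F) {a b c : Pt} (hab : (a, b) ∈ F) (hac : (a, c) ∈ F)
    (hD : 0 < det a b c) (hcone : ∀ x, (a, x) ∈ F → ¬ (0 < det a b x ∧ 0 < det c a x)) :
    (b, c) ∈ F ∧ ∀ x ∈ V, 0 ≤ det a b x → 0 ≤ det b c x → 0 ≤ det c a x →
      x = a ∨ x = b ∨ x = c := by
  have haV : a ∈ V := h.mem hab
  have hbV : b ∈ V := h.mem' hab
  have hcV : c ∈ V := h.mem' hac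
  have claim1 : ∀ x ∈ V, 0 < det a b x → 0 < det c a x → det b c x < 0 := by
    by_contra hcon
    push Not at hcon
    obtain ⟨x1, hx1V, hx1b, hx1c, hx1⟩ := hcon
    classical
    obtain ⟨x0, hx0, hmax⟩ := Finset.exists_max_image
      (V.filter (fun x => 0 < det a b x ∧ 0 < det c a x ∧ 0 ≤ det b c x)) (fun x => det b c x)
      ⟨x1, Finset.mem_filter.2 ⟨hx1V, hx1b, hx1c, hx1⟩⟩
    rw [Finset.mem_filter] at hx0
    obtain ⟨hx0V, hx0b, hx0c, hx0⟩ := hx0
    have hmax' : ∀ z ∈ V, 0 < det a b z → 0 < det c a z → det b c x0 < det b c z → False := by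
      intro z hz z1 z2 z3
      have := hmax z (Finset.mem_filter.2 ⟨hz, z1, z2, by linarith⟩)
      linarith
    have hax : a ≠ x0 := by
      rintro rfl; simp at hx0b
    have hlt : det b c x0 < det a b c := by
      have := det_sum a b c x0; linarith
    have hval : ∀ t : ℝ, 0 < t → t < 1 → 0 < det a b (lerp a x0 t) ∧
        0 < det c a (lerp a x0 t) ∧ det b c x0 < det b c (lerp a x0 t) := by
      intro t t0 t1
      refine ⟨?_, ?_, ?_⟩
      · rw [aff_det]; simp only [det_self_left, mul_zero, zero_add]; positivity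
      · rw [aff_det]; simp only [det_self_right, mul_zero, zero_add]; positivity
      · rw [aff_det, det_rot a b c]; nlinarith
    have key : ∀ p q, (p, q) ∈ F → ∀ t u : ℝ, 0 < t → t < 1 → 0 < u → u < 1 →
        lerp a x0 t = lerp p q u → det b c (lerp p q u) ≤ det b c p → False := by
      intro p q hpq t u t0 t1 u0 u1 e hle
      obtain ⟨k1, k2, k3⟩ := hval t t0 t1
      rw [e] at k1 k2 k3
      obtain ⟨m1, m2⟩ := h.keyK hab hac hD hcone hpq u0 u1 k1 k2 (by linarith) hle
        (Or.inl (by linarith))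
      exact hmax' p (h.mem hpq) m1 m2 (by linarith)
    have hin : (a, x0) ∈ F := by
      apply h.maxl haV hx0V hax
      · intro z hz hzo
        obtain ⟨t, t0, t1, rfl⟩ := mem_os.1 hzo
        obtain ⟨k1, k2, k3⟩ := hval t t0 t1
        exact hmax' _ hz k1 k2 k3
      · intro p q hpq z hz hz'
        obtain ⟨t, t0, t1, rfl⟩ := mem_os.1 hz
        obtain ⟨u, u0, u1, e⟩ := mem_os.1 hz'
        by_cases hle : det b c (lerp p q u) ≤ det b c p
        · exact key p q hpq t u t0 t1 u0 u1 e hle
        · push Not at hle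
          have e' : lerp a x0 t = lerp q p (1 - u) := by rw [e, lerp_comm]
          apply key q p (h.symm hpq) t (1 - u) t0 t1 (by linarith) (by linarith) e'
          rw [← lerp_comm]
          rw [aff_det] at hle ⊢
          nlinarith
    exact hcone x0 hin ⟨hx0b, hx0c⟩
  have claim2 : ∀ x ∈ V, 0 ≤ det a b x → 0 ≤ det b c x → 0 ≤ det c a x →
      x = a ∨ x = b ∨ x = c := by
    intro x hx h1 h2 h3
    have hsum := det_sum a b c x
    rcases eq_or_lt_of_le h1 with e1 | e1
    · have hs : x = lerp a b (det c a x / det a b c) := on_ab hD.ne' e1.symm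
      rcases eq_or_lt_of_le h3 with e3 | e3
      · left; rw [hs, ← e3]; simp
      · rcases eq_or_lt_of_le h2 with e2 | e2
        · right; left
          have : det c a x / det a b c = 1 := by rw [div_eq_one_iff_eq hD.ne']; linarith
          rw [hs, this, lerp_one]
        · exfalso
          exact h.prim hab hx (mem_os.2 ⟨_, div_pos e3 hD, by rw [div_lt_one hD]; linarith, hs⟩)
    · rcases eq_or_lt_of_le h3 with e3 | e3
      · have hs : x = lerp a c (det a b x / det a b c) := on_ac hD.ne' e3.symm
        rcases eq_or_lt_of_le h2 with e2 | e2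
        · right; right
          have : det a b x / det a b c = 1 := by rw [div_eq_one_iff_eq hD.ne']; linarith
          rw [hs, this, lerp_one]
        · exfalso
          exact h.prim hac hx (mem_os.2 ⟨_, div_pos e1 hD, by rw [div_lt_one hD]; linarith, hs⟩)
      · exfalso
        have := claim1 x hx e1 e3
        linarith
  refine ⟨?_, claim2⟩
  have hbc : b ≠ c := by rintro rfl; simp at hD
  by_contra hnot
  apply hnot
  apply h.maxl hbV hcV hbc
  · intro z hz hzo
    obtain ⟨s, s0, s1, rfl⟩ := mem_os.1 hzo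
    have k1 : 0 < det a b (lerp b c s) := by
      rw [aff_det]; simp only [det_self_right, mul_zero, zero_add]; positivity
    have k2 : 0 < det c a (lerp b c s) := by
      rw [aff_det]; simp only [det_self_left, mul_zero, add_zero, det_rot']
      apply mul_pos _ hD; linarith
    have k3 : det b c (lerp b c s) = 0 := by rw [aff_det]; simp
    have := claim1 _ hz k1 k2
    linarith
  · intro p q hpq z hz hz'
    obtain ⟨s, s0, s1, rfl⟩ := mem_os.1 hz
    obtain ⟨u, u0, u1, e⟩ := mem_os.1 hz'
    have k1 : 0 < det a b (lerp b c s) := by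
      rw [aff_det]; simp only [det_self_right, mul_zero, zero_add]; positivity
    have k2 : 0 < det c a (lerp b c s) := by
      rw [aff_det]; simp only [det_self_left, mul_zero, add_zero, det_rot']
      apply mul_pos _ hD; linarith
    have k3 : det b c (lerp b c s) = 0 := by rw [aff_det]; simp
    have key : ∀ p q, (p, q) ∈ F → ∀ u : ℝ, 0 < u → u < 1 →
        lerp b c s = lerp p q u → 0 < det b c p → False := by
      intro p q hpq u u0 u1 e hlt
      rw [e] at k1 k2 k3
      obtain ⟨m1, m2⟩ := h.keyK hab hac hD hcone hpq u0 u1 k1 k2 (by linarith) (by linarith)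
        (Or.inr (by linarith))
      have := claim1 p (h.mem hpq) m1 m2
      linarith
    have k4 : (1 - u) * det b c p + u * det b c q = 0 := by
      rw [← aff_det, ← e, k3]
    rcases lt_trichotomy (det b c p) 0 with hp | hp | hp
    · have hq : 0 < det b c q := by
        by_contra hq; push Not at hq; nlinarith
      exact key q p (h.symm hpq) (1 - u) (by linarith) (by linarith) (by rw [e, lerp_comm]) hq
    · have hq : det b c q = 0 := by
        rw [hp] at k4
        have : u * det b c q = 0 := by linarith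
        exact (mul_eq_zero.1 this).resolve_left u0.ne'
      have noV : ∀ z ∈ V, z ∉ openSegment ℝ b c := by
        intro z hz hzo
        obtain ⟨s, s0, s1, rfl⟩ := mem_os.1 hzo
        have k1 : 0 < det a b (lerp b c s) := by
          rw [aff_det]; simp only [det_self_right, mul_zero, zero_add]; positivity
        have k2 : 0 < det c a (lerp b c s) := by
          rw [aff_det]; simp only [det_self_left, mul_zero, add_zero, det_rot']
          apply mul_pos _ hD; linarith
        have k3 : det b c (lerp b c s) = 0 := by rw [aff_det]; simp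
        have := claim1 _ hz k1 k2
        linarith
      rcases overlap hbc (h.ne hpq) hz hz' hp hq (h.prim hpq hbV) (h.prim hpq hcV)
        (noV p (h.mem hpq)) (noV q (h.mem' hpq)) with ⟨rfl, rfl⟩ | ⟨rfl, rfl⟩
      · exact hnot hpq
      · exact hnot (h.symm hpq)
    · exact key p q hpq u u0 u1 e hp

end Fam

end Pool.Agent.H134.Dg
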