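import Mathlib

/-!
# Plane geometry with coordinates: orientation, affine functions, crossing segments
-/

set_option autoImplicit false

namespace Pool.Agent.H134.Dg

abbrev Pt := ℝ × ℝ

/-- twice the signed area of the triangle `a b c` -/
def det (a b c : Pt) : ℝ := (b.1 - a.1) * (c.2 - a.2) - (b.2 - a.2) * (c.1 - a.1)

/-- the point `(1 - t) a + t b` -/
def lerp (a b : Pt) (t : ℝ) : Pt := ((1 - t) * a.1 + t * b.1, (1 - t) * a.2 + t * b.2)

theorem mem_os {a b z : Pt} :
    z ∈ openSegment ℝ a b ↔ ∃ t : ℝ, 0 < t ∧ t < 1 ∧ z = lerp a b t := by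
  rw [openSegment_eq_image]
  constructor
  · rintro ⟨t, ⟨h0, h1⟩, rfl⟩
    exact ⟨t, h0, h1, by ext <;> simp [lerp]⟩
  · rintro ⟨t, h0, h1, rfl⟩
    exact ⟨t, ⟨h0, h1⟩, by ext <;> simp [lerp]⟩

theorem mem_sg {a b z : Pt} :
    z ∈ segment ℝ a b ↔ ∃ t : ℝ, 0 ≤ t ∧ t ≤ 1 ∧ z = lerp a b t := by
  rw [segment_eq_image]
  constructor
  · rintro ⟨t, ⟨h0, h1⟩, rfl⟩
    exact ⟨t, h0, h1, by ext <;> simp [lerp]⟩
  · rintro ⟨t, h0, h1, rfl⟩
    exact ⟨t, ⟨h0, h1⟩, by ext <;> simp [lerp]⟩

theorem lerp_os {a b : Pt} {t : ℝ} (h0 : 0 < t) (h1 : t < 1) : lerp a b t ∈ openSegment ℝ a b :=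
  mem_os.2 ⟨t, h0, h1, rfl⟩

@[simp] theorem lerp_zero (a b : Pt) : lerp a b 0 = a := by simp [lerp]
@[simp] theorem lerp_one (a b : Pt) : lerp a b 1 = b := by simp [lerp]

theorem lerp_comm (a b : Pt) (t : ℝ) : lerp a b t = lerp b a (1 - t) := by
  ext <;> simp [lerp] <;> ring

theorem lerp_lerp (a b : Pt) (s t u : ℝ) :
    lerp (lerp a b s) (lerp a b t) u = lerp a b ((1 - u) * s + u * t) := by
  ext <;> simp [lerp] <;> ring

theorem lerp_left (a b : Pt) (s u : ℝ) :
    lerp a (lerp a b s) u = lerp a b (u * s) := by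
  ext <;> simp [lerp] <;> ring

theorem lerp_to_left (a b : Pt) (s u : ℝ) :
    lerp (lerp a b s) a u = lerp a b ((1 - u) * s) := by
  ext <;> simp [lerp] <;> ring

theorem lerp_to_right (a b : Pt) (s u : ℝ) :
    lerp (lerp a b s) b u = lerp a b ((1 - u) * s + u) := by
  ext <;> simp [lerp] <;> ring

theorem lerp_inj {a b : Pt} (h : a ≠ b) {s t : ℝ} (e : lerp a b s = lerp a b t) : s = t := by
  by_contra hst
  apply h
  have h1 := congrArg Prod.fst e
  have h2 := congrArg Prod.snd e
  simp only [lerp] at h1 h2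
  have hst' : s - t ≠ 0 := sub_ne_zero.2 hst
  ext
  · apply mul_left_cancel₀ hst'; linarith
  · apply mul_left_cancel₀ hst'; linarith

theorem left_not_mem_os {a b : Pt} (h : a ≠ b) : a ∉ openSegment ℝ a b := by
  intro hm
  obtain ⟨t, h0, h1, e⟩ := mem_os.1 hm
  have : (0 : ℝ) = t := lerp_inj h (by rw [lerp_zero]; exact e)
  linarith

theorem right_not_mem_os {a b : Pt} (h : a ≠ b) : b ∉ openSegment ℝ a b := by
  rw [openSegment_symm]; exact left_not_mem_os h.symm

/-! ## affine functions -/

/-- `f` is affine -/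
def Aff (f : Pt → ℝ) : Prop := ∀ a b t, f (lerp a b t) = (1 - t) * f a + t * f b

theorem aff_det (a b : Pt) : Aff (det a b) := by
  intro c d t; simp only [det, lerp]; ring

theorem aff_const (c : ℝ) : Aff (fun _ => c) := by intro a b t; ring

theorem Aff.add {f g : Pt → ℝ} (hf : Aff f) (hg : Aff g) : Aff (fun z => f z + g z) := by
  intro a b t; simp only [hf a b t, hg a b t]; ring

theorem Aff.sub {f g : Pt → ℝ} (hf : Aff f) (hg : Aff g) : Aff (fun z => f z - g z) := by
  intro a b t; simp only [hf a b t, hg a b t]; ring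

theorem Aff.cmul {f : Pt → ℝ} (hf : Aff f) (c : ℝ) : Aff (fun z => c * f z) := by
  intro a b t; simp only [hf a b t]; ring

theorem Aff.divc {f : Pt → ℝ} (hf : Aff f) (c : ℝ) : Aff (fun z => f z / c) := by
  intro a b t; simp only [hf a b t]; ring

/-- the linear form `w` based at `a` -/
def lin (w a z : Pt) : ℝ := w.1 * (z.1 - a.1) + w.2 * (z.2 - a.2)

theorem aff_lin (w a : Pt) : Aff (lin w a) := by
  intro c d t; simp only [lin, lerp]; ring

@[simp] theorem lin_self (w a : Pt) : lin w a a = 0 := by simp [lin]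

/-! ## determinants -/

theorem det_rot (a b c : Pt) : det b c a = det a b c := by simp only [det]; ring
theorem det_rot' (a b c : Pt) : det c a b = det a b c := by simp only [det]; ring
theorem det_swap (a b c : Pt) : det b a c = - det a b c := by simp only [det]; ring
theorem det_swap' (a b c : Pt) : det a c b = - det a b c := by simp only [det]; ring
@[simp] theorem det_self_left (a b : Pt) : det a b a = 0 := by simp only [det]; ring
@[simp] theorem det_self_right (a b : Pt) : det a b b = 0 := by simp only [det]; ring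
@[simp] theorem det_self (a b : Pt) : det a a b = 0 := by simp only [det]; ring

theorem det_lerp_l (a b c : Pt) (t : ℝ) : det a (lerp a b t) c = t * det a b c := by
  simp only [det, lerp]; ring

/-- barycentric decomposition of the determinant -/
theorem det_sum (a b c z : Pt) : det a b z + det b c z + det c a z = det a b c := by
  simp only [det]; ring

/-- a point is determined by two of its barycentric coordinates -/
theorem ext_det {a b c z z' : Pt} (h : det a b c ≠ 0) (h1 : det a b z = det a b z')
    (h2 : det c a z = det c a z') : z = z' := by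
  have e1 : det a b c * (z.1 - z'.1) = 0 := by
    have : det a b c * (z.1 - z'.1) = (c.1 - a.1) * (det a b z - det a b z')
        + (b.1 - a.1) * (det c a z - det c a z') := by simp only [det]; ring
    rw [this, h1, h2]; ring
  have e2 : det a b c * (z.2 - z'.2) = 0 := by
    have : det a b c * (z.2 - z'.2) = (c.2 - a.2) * (det a b z - det a b z')
        + (b.2 - a.2) * (det c a z - det c a z') := by simp only [det]; ring
    rw [this, h1, h2]; ring
  ext
  · exact sub_eq_zero.1 ((mul_eq_zero.1 e1).resolve_left h)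
  · exact sub_eq_zero.1 ((mul_eq_zero.1 e2).resolve_left h)

theorem on_ab {a b c y : Pt} (hD : det a b c ≠ 0) (h : det a b y = 0) :
    y = lerp a b (det c a y / det a b c) := by
  apply ext_det hD
  · rw [h, aff_det a b a b, det_self_left, det_self_right]; ring
  · rw [aff_det c a a b, det_self_right, det_rot' a b c]; field_simp; ring

theorem on_ac {a b c y : Pt} (hD : det a b c ≠ 0) (h : det c a y = 0) :
    y = lerp a c (det a b y / det a b c) := by
  apply ext_det hD
  · rw [aff_det a b a c, det_self_left]; field_simp; ring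
  · rw [h, aff_det c a a c, det_self_left, det_self_right]; ring

theorem on_bc {a b c y : Pt} (hD : det a b c ≠ 0) (h : det b c y = 0) :
    y = lerp b c (det a b y / det a b c) := by
  have hs := det_sum a b c y
  apply ext_det hD
  · rw [aff_det a b b c, det_self_right]; field_simp; ring
  · have e : det c a y = det a b c - det a b y := by linarith
    rw [aff_det c a b c, det_self_left, det_rot' a b c, e]; field_simp; ring

/-- points of the line `a b` -/
theorem exists_lerp_of_det_eq_zero {a b z : Pt} (hab : a ≠ b) (h : det a b z = 0) :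
    ∃ t, z = lerp a b t := by
  by_cases h1 : a.1 = b.1
  · have h2 : b.2 - a.2 ≠ 0 := by
      intro h2; apply hab; ext
      · exact h1
      · linarith
    have hz : z.1 = a.1 := by
      simp only [det] at h
      have : (b.2 - a.2) * (z.1 - a.1) = 0 := by rw [h1] at h ⊢; linarith
      have := (mul_eq_zero.1 this).resolve_left h2
      linarith
    refine ⟨(z.2 - a.2) / (b.2 - a.2), ?_⟩
    ext
    · simp only [lerp]; rw [hz, ← h1]; ring
    · simp only [lerp]; field_simp; ring
  · have h2 : b.1 - a.1 ≠ 0 := fun h2 => h1 (by linarith)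
    refine ⟨(z.1 - a.1) / (b.1 - a.1), ?_⟩
    simp only [det] at h
    ext
    · simp only [lerp]; field_simp; ring
    · simp only [lerp]; field_simp; linarith

/-- Two segments with endpoints on opposite sides cross. -/
theorem cross_point {p q r s : Pt} (h1 : det p q r * det p q s < 0)
    (h2 : det r s p * det r s q < 0) :
    ∃ t, 0 < t ∧ t < 1 ∧ ∃ u, 0 < u ∧ u < 1 ∧ lerp p q t = lerp r s u := by
  have key : ∀ A B : ℝ, A * B < 0 → 0 < A / (A - B) ∧ A / (A - B) < 1 := by
    intro A B hAB
    rcases lt_trichotomy A 0 with hA | hA | hA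
    · have hB : 0 < B := by
        by_contra hB; push Not at hB; nlinarith
      constructor
      · apply div_pos_of_neg_of_neg hA; linarith
      · rw [div_lt_one_of_neg (by linarith)]; linarith
    · rw [hA] at hAB; linarith
    · have hB : B < 0 := by
        by_contra hB; push Not at hB; nlinarith
      constructor
      · apply div_pos hA; linarith
      · rw [div_lt_one (by linarith)]; linarith
  set A := det r s p with hA
  set B := det r s q with hB
  set C := det p q r with hC
  set D := det p q s with hD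
  have hAB : A - B ≠ 0 := by intro h; have : A = B := by linarith
                             rw [this] at h2; nlinarith
  have hCD : C - D ≠ 0 := by intro h; have : C = D := by linarith
                             rw [this] at h1; nlinarith
  refine ⟨A / (A - B), (key A B h2).1, (key A B h2).2, C / (C - D), (key C D h1).1,
    (key C D h1).2, ?_⟩
  have hs : A - B = - (C - D) := by rw [hA, hB, hC, hD]; simp only [det]; ring
  ext
  · simp only [lerp]
    field_simp
    rw [hs]
    simp only [hA, hC, hD, det]; ring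
  · simp only [lerp]
    field_simp
    rw [hs]
    simp only [hA, hC, hD, det]; ring

theorem cross_os {p q r s : Pt} (h1 : det p q r * det p q s < 0)
    (h2 : det r s p * det r s q < 0) :
    ∃ z, z ∈ openSegment ℝ p q ∧ z ∈ openSegment ℝ r s := by
  obtain ⟨t, t0, t1, u, u0, u1, e⟩ := cross_point h1 h2
  exact ⟨lerp p q t, lerp_os t0 t1, by rw [e]; exact lerp_os u0 u1⟩

/-- Overlapping collinear primitive segments are equal. -/
theorem overlap {a b p q y : Pt} (hab : a ≠ b) (hpq : p ≠ q)
    (hy : y ∈ openSegment ℝ a b) (hy' : y ∈ openSegment ℝ p q)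
    (hp : det a b p = 0) (hq : det a b q = 0)
    (ha1 : a ∉ openSegment ℝ p q) (hb1 : b ∉ openSegment ℝ p q)
    (hp1 : p ∉ openSegment ℝ a b) (hq1 : q ∉ openSegment ℝ a b) :
    (p = a ∧ q = b) ∨ (p = b ∧ q = a) := by
  obtain ⟨P, rfl⟩ := exists_lerp_of_det_eq_zero hab hp
  obtain ⟨Q, rfl⟩ := exists_lerp_of_det_eq_zero hab hq
  obtain ⟨t, t0, t1, rfl⟩ := mem_os.1 hy
  obtain ⟨u, u0, u1, e⟩ := mem_os.1 hy'
  rw [lerp_lerp] at e
  have e' := lerp_inj hab e
  have hP : P ≤ 0 ∨ 1 ≤ P := by
    by_contra h; push Not at h; exact hp1 (lerp_os h.1 h.2)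
  have hQ : Q ≤ 0 ∨ 1 ≤ Q := by
    by_contra h; push Not at h; exact hq1 (lerp_os h.1 h.2)
  have hPQ : P ≠ Q := fun h => hpq (by rw [h])
  -- `a` is not strictly between
  have hA : ∀ w, 0 < w → w < 1 → (1 - w) * P + w * Q ≠ 0 := by
    intro w w0 w1 hw
    apply ha1
    refine mem_os.2 ⟨w, w0, w1, ?_⟩
    rw [lerp_lerp, hw, lerp_zero]
  have hB : ∀ w, 0 < w → w < 1 → (1 - w) * P + w * Q ≠ 1 := by
    intro w w0 w1 hw
    apply hb1
    refine mem_os.2 ⟨w, w0, w1, ?_⟩
    rw [lerp_lerp, hw, lerp_one]
  rcases hP with hP | hP <;> rcases hQ with hQ | hQ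
  · exfalso; nlinarith
  · left
    have hP0 : P = 0 := by
      by_contra hne
      have hlt : P < 0 := lt_of_le_of_ne hP hne
      apply hA (P / (P - Q)) (div_pos_of_neg_of_neg hlt (by linarith))
        (by rw [div_lt_one_of_neg (by linarith)]; linarith)
      have : P - Q ≠ 0 := by linarith
      field_simp; ring
    have hQ1 : Q = 1 := by
      by_contra hne
      have hlt : 1 < Q := lt_of_le_of_ne hQ (Ne.symm hne)
      apply hB ((1 - P) / (Q - P)) (div_pos (by linarith) (by linarith))
        (by rw [div_lt_one (by linarith)]; linarith)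
      have : Q - P ≠ 0 := by linarith
      field_simp; ring
    rw [hP0, hQ1]; simp
  · right
    have hQ0 : Q = 0 := by
      by_contra hne
      have hlt : Q < 0 := lt_of_le_of_ne hQ hne
      apply hA (P / (P - Q)) (div_pos (by linarith) (by linarith))
        (by rw [div_lt_one (by linarith)]; linarith)
      have : P - Q ≠ 0 := by linarith
      field_simp; ring
    have hP1 : P = 1 := by
      by_contra hne
      have hlt : 1 < P := lt_of_le_of_ne hP (Ne.symm hne)
      apply hB ((P - 1) / (P - Q)) (div_pos (by linarith) (by linarith))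
        (by rw [div_lt_one (by linarith)]; linarith)
      have : P - Q ≠ 0 := by linarith
      field_simp; ring
    rw [hP1, hQ0]; simp
  · exfalso; nlinarith

/-! ## leaving a convex region -/

/-- leaving the region `0 ≤ A, 0 ≤ B` -/
theorem exit2 {A B A' B' : ℝ} (hA : 0 < A) (hB : 0 < B) (h : A' ≤ 0 ∨ B' ≤ 0) :
    ∃ t, 0 < t ∧ t ≤ 1 ∧ (((1 - t) * A + t * A' = 0 ∧ 0 ≤ (1 - t) * B + t * B') ∨
      ((1 - t) * B + t * B' = 0 ∧ 0 ≤ (1 - t) * A + t * A')) := by
  have key : ∃ t ∈ Set.Icc (0 : ℝ) 1, min ((1 - t) * A + t * A') ((1 - t) * B + t * B') = 0 := by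
    have hc : ContinuousOn (fun t : ℝ => min ((1 - t) * A + t * A') ((1 - t) * B + t * B'))
        (Set.Icc 0 1) := by fun_prop
    have := intermediate_value_Icc' (zero_le_one) hc
    have h0 : (0 : ℝ) ∈ Set.Icc ((fun t : ℝ => min ((1 - t) * A + t * A')
        ((1 - t) * B + t * B')) 1) ((fun t : ℝ => min ((1 - t) * A + t * A')
        ((1 - t) * B + t * B')) 0) := by
      constructor
      · simp only [sub_self, zero_mul, one_mul, zero_add]
        rcases h with h | h
        · exact (min_le_left _ _).trans h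
        · exact (min_le_right _ _).trans h
      · simp only [sub_zero, one_mul, zero_mul, add_zero]
        exact le_min hA.le hB.le
    obtain ⟨t, ht, e⟩ := this h0
    exact ⟨t, ht, e⟩
  obtain ⟨t, ⟨t0, t1⟩, e⟩ := key
  have ht : t ≠ 0 := by
    rintro rfl
    simp only [sub_zero, one_mul, zero_mul, add_zero] at e
    have : 0 < min A B := lt_min hA hB
    linarith
  refine ⟨t, lt_of_le_of_ne t0 (Ne.symm ht), t1, ?_⟩
  rcases min_choice ((1 - t) * A + t * A') ((1 - t) * B + t * B') with h | h
  · left
    exact ⟨by rw [← h, e], by rw [← e]; exact min_le_right _ _⟩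
  · right
    exact ⟨by rw [← h, e], by rw [← e]; exact min_le_left _ _⟩

/-- leaving the region `0 ≤ A, 0 ≤ B, 0 ≤ C` -/
theorem exit3 {A B C A' B' C' : ℝ} (hA : 0 < A) (hB : 0 < B) (hC : 0 < C)
    (h : A' < 0 ∨ B' < 0 ∨ C' < 0) :
    ∃ t, 0 < t ∧ t < 1 ∧ 0 ≤ (1 - t) * A + t * A' ∧ 0 ≤ (1 - t) * B + t * B' ∧
      0 ≤ (1 - t) * C + t * C' ∧
      ((1 - t) * A + t * A' = 0 ∨ (1 - t) * B + t * B' = 0 ∨ (1 - t) * C + t * C' = 0) := by
  set f : ℝ → ℝ := fun t => min ((1 - t) * A + t * A')
    (min ((1 - t) * B + t * B') ((1 - t) * C + t * C')) with hf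
  have key : ∃ t ∈ Set.Icc (0 : ℝ) 1, f t = 0 := by
    have hc : ContinuousOn f (Set.Icc 0 1) := by rw [hf]; fun_prop
    have := intermediate_value_Icc' (zero_le_one) hc
    have h0 : (0 : ℝ) ∈ Set.Icc (f 1) (f 0) := by
      constructor
      · simp only [hf, sub_self, zero_mul, one_mul, zero_add]
        rcases h with h | h | h
        · exact (min_le_left _ _).trans h.le
        · exact ((min_le_right _ _).trans (min_le_left _ _)).trans h.le
        · exact ((min_le_right _ _).trans (min_le_right _ _)).trans h.le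
      · simp only [hf, sub_zero, one_mul, zero_mul, add_zero]
        exact le_min hA.le (le_min hB.le hC.le)
    obtain ⟨t, ht, e⟩ := this h0
    exact ⟨t, ht, e⟩
  obtain ⟨t, ⟨t0, t1⟩, e⟩ := key
  have ht : t ≠ 0 := by
    rintro rfl
    simp only [hf, sub_zero, one_mul, zero_mul, add_zero] at e
    have : 0 < min A (min B C) := lt_min hA (lt_min hB hC)
    linarith
  have ht1 : t ≠ 1 := by
    rintro rfl
    simp only [hf, sub_self, zero_mul, one_mul, zero_add] at e
    have : min A' (min B' C') < 0 := by
      rcases h with h | h | h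
      · exact (min_le_left _ _).trans_lt h
      · exact ((min_le_right _ _).trans (min_le_left _ _)).trans_lt h
      · exact ((min_le_right _ _).trans (min_le_right _ _)).trans_lt h
    linarith
  refine ⟨t, lt_of_le_of_ne t0 (Ne.symm ht), lt_of_le_of_ne t1 ht1, ?_, ?_, ?_, ?_⟩
  · rw [← e]; exact min_le_left _ _
  · rw [← e]; exact (min_le_right _ _).trans (min_le_left _ _)
  · rw [← e]; exact (min_le_right _ _).trans (min_le_right _ _)
  · rcases min_choice ((1 - t) * A + t * A')
      (min ((1 - t) * B + t * B') ((1 - t) * C + t * C')) with h | h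
    · left; rw [← h]; exact e
    · rcases min_choice ((1 - t) * B + t * B') ((1 - t) * C + t * C') with h' | h'
      · right; left; rw [← h', ← h]; exact e
      · right; right; rw [← h', ← h]; exact e

end Pool.Agent.H134.Dg
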