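import Pool.Agent.H134.Dg.Poly

/-!
# Polygon edges between hull vertices
-/

set_option autoImplicit false
set_option linter.unusedSimpArgs false

open scoped Classical

namespace Pool.Agent.H134.Dg

/-- a two-sided line through a hull vertex points strictly inwards -/
theorem hull_neg {V : Finset Pt} {w a b x y : Pt} (hw : w ≠ 0) (hh : ∀ z ∈ V, lin w a z ≤ 0)
    (hb : b ∈ V) (hx : x ∈ V) (hy : y ∈ V) (px : 0 < det a b x) (py : 0 < det b a y) :
    lin w a b < 0 := by
  apply lt_of_le_of_ne (hh b hb)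
  intro e
  have id : det a x y * lin w a b + det a y b * lin w a x + det a b x * lin w a y = 0 := by
    simp only [det, lin]; ring
  have e1 : det a y b = det b a y := (det_rot' a y b).symm
  rw [e, e1] at id
  have m1 := mul_nonpos_of_nonneg_of_nonpos py.le (hh x hx)
  have m2 := mul_nonpos_of_nonneg_of_nonpos px.le (hh y hy)
  have hx0 : lin w a x = 0 :=
    (mul_eq_zero.1 (show det b a y * lin w a x = 0 by linarith)).resolve_left py.ne'
  exact hw (eq_zero_of_lin px.ne' e hx0)

/-- points of the hull on a two-sided line through two hull vertices lie between them -/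
theorem hull_between {V : Finset Pt} {wa wb a b x y z : Pt} (hwa : wa ≠ 0) (hwb : wb ≠ 0)
    (hha : ∀ z ∈ V, lin wa a z ≤ 0) (hhb : ∀ z ∈ V, lin wb b z ≤ 0)
    (ha : a ∈ V) (hb : b ∈ V) (hx : x ∈ V) (hy : y ∈ V) (px : 0 < det a b x)
    (py : 0 < det b a y) (hz : det a b z = 0) (za : lin wa a z ≤ 0) (zb : lin wb b z ≤ 0) :
    ∃ t, 0 ≤ t ∧ t ≤ 1 ∧ z = lerp a b t := by
  have hab : a ≠ b := by rintro rfl; simp at px
  obtain ⟨t, rfl⟩ := exists_lerp_of_det_eq_zero hab hz
  have n1 := hull_neg hwa hha hb hx hy px py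
  have n2 := hull_neg hwb hhb ha hy hx py px
  rw [aff_lin] at za zb
  simp only [lin_self, mul_zero, zero_add, add_zero] at za zb
  refine ⟨t, ?_, ?_, rfl⟩
  · by_contra hh; push Not at hh
    have := mul_pos_of_neg_of_neg hh n1
    linarith
  · by_contra hh; push Not at hh
    have := mul_pos_of_neg_of_neg (show 1 - t < 0 by linarith) n2
    linarith

variable {n : ℕ} {v : ℕ → Pt}

theorem mod_cancel {n i a b : ℕ} (h : (i + a) % n = (i + b) % n) (ha : a < n) (hb : b < n) :
    a = b := by
  have : a ≡ b [MOD n] := Nat.ModEq.add_left_cancel' i h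
  rwa [Nat.ModEq, Nat.mod_eq_of_lt ha, Nat.mod_eq_of_lt hb] at this

theorem sc_idx (n i m : ℕ) : sc n ((i + m) % n) = (i + (m + 1)) % n := by
  unfold sc
  rw [Nat.mod_add_mod, add_assoc]

namespace SP

theorem hull_edge (h : SP n v) {i : ℕ} (hi : i < n) (h1 : v i ∈ hullV (VV n v))
    (h2 : v (sc n i) ∈ hullV (VV n v)) :
    ¬ ((∃ x ∈ VV n v, 0 < det (v i) (v (sc n i)) x) ∧
      (∃ y ∈ VV n v, 0 < det (v (sc n i)) (v i) y)) := by
  rintro ⟨⟨x, hx, px⟩, ⟨y, hy, py⟩⟩
  have hn := h.hn
  obtain ⟨ha, wa, hwa, hha⟩ := Finset.mem_filter.1 h1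
  obtain ⟨hb, wb, hwb, hhb⟩ := Finset.mem_filter.1 h2
  have hidx0 : (i + 0) % n = i := by rw [add_zero]; exact Nat.mod_eq_of_lt hi
  have hidx1 : (i + 1) % n = sc n i := rfl
  have hidxlt : ∀ m, (i + m) % n < n := fun m => Nat.mod_lt _ (by omega)
  set a := v i with haa
  set b := v (sc n i) with hbb
  -- the other vertices are off the line
  have hne0 : ∀ m, 2 ≤ m → m < n → det a b (v ((i + m) % n)) ≠ 0 := by
    intro m hm2 hmn e
    have hV : v ((i + m) % n) ∈ VV n v := mem_VV.2 ⟨_, hidxlt m, rfl⟩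
    obtain ⟨t, t0, t1, ht⟩ := hull_between hwa hwb hha hhb ha hb hx hy px py e
      (hha _ hV) (hhb _ hV)
    rcases eq_or_lt_of_le t0 with e0 | e0
    · rw [← e0, lerp_zero, haa] at ht
      have := h.inj _ (hidxlt m) _ hi ht
      have := mod_cancel (this.trans hidx0.symm) hmn (by omega)
      omega
    rcases eq_or_lt_of_le t1 with e1 | e1
    · rw [e1, lerp_one, hbb] at ht
      have := h.inj _ (hidxlt m) _ (sc_lt hn) ht
      have := mod_cancel (this.trans hidx1.symm) hmn (by omega)
      omega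
    · exact h.prim_idx hi (hidxlt m) (mem_os.2 ⟨t, e0, e1, ht⟩)
  -- no sign change
  have hstep : ∀ m, 2 ≤ m → m + 1 < n →
      0 < det a b (v ((i + m) % n)) * det a b (v ((i + (m + 1)) % n)) := by
    intro m hm2 hmn
    by_contra hcon
    push Not at hcon
    have k1 := hne0 m hm2 (by omega)
    have k2 := hne0 (m + 1) (by omega) hmn
    have hlt : det a b (v ((i + m) % n)) * det a b (v ((i + (m + 1)) % n)) < 0 :=
      lt_of_le_of_ne hcon (mul_ne_zero k1 k2)
    set A := det a b (v ((i + m) % n)) with hA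
    set B := det a b (v ((i + (m + 1)) % n)) with hB
    obtain ⟨u, u0, u1, hu⟩ : ∃ u : ℝ, 0 ≤ u ∧ u ≤ 1 ∧ (1 - u) * A + u * B = 0 := by
      rcases lt_or_gt_of_ne k1 with hA0 | hA0
      · have hB0 : 0 < B := by by_contra hh; push Not at hh; nlinarith
        refine ⟨A / (A - B), (div_pos_of_neg_of_neg hA0 (by linarith)).le,
          by rw [div_le_one_of_neg (by linarith)]; linarith, ?_⟩
        have : A - B ≠ 0 := by linarith
        field_simp
        ring
      · have hB0 : B < 0 := by by_contra hh; push Not at hh; nlinarith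
        refine ⟨A / (A - B), (div_pos hA0 (by linarith)).le,
          by rw [div_le_one (by linarith)]; linarith, ?_⟩
        have : A - B ≠ 0 := by linarith
        field_simp
        ring
    have hV1 : v ((i + m) % n) ∈ VV n v := mem_VV.2 ⟨_, hidxlt m, rfl⟩
    have hV2 : v ((i + (m + 1)) % n) ∈ VV n v := mem_VV.2 ⟨_, hidxlt _, rfl⟩
    set z := lerp (v ((i + m) % n)) (v ((i + (m + 1)) % n)) u with hz
    have hzd : det a b z = 0 := by rw [hz, aff_det]; exact hu
    have hza : lin wa a z ≤ 0 := by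
      rw [hz, aff_lin]
      have := hha _ hV1
      have := hha _ hV2
      nlinarith
    have hzb : lin wb b z ≤ 0 := by
      rw [hz, aff_lin]
      have := hhb _ hV1
      have := hhb _ hV2
      nlinarith
    obtain ⟨t, t0, t1, ht⟩ := hull_between hwa hwb hha hhb ha hb hx hy px py hzd hza hzb
    have hs1 : z ∈ segment ℝ (v i) (v ((i + 1) % n)) := mem_sg.2 ⟨t, t0, t1, ht⟩
    have hs2 : z ∈ segment ℝ (v ((i + m) % n)) (v (((i + m) % n + 1) % n)) := by
      have : ((i + m) % n + 1) % n = (i + (m + 1)) % n := sc_idx n i m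
      rw [this]
      exact mem_sg.2 ⟨u, u0, u1, hz⟩
    refine Set.disjoint_left.1 (h.disj i hi _ (hidxlt m) ?_ ?_ ?_) hs1 hs2
    · intro e
      have := mod_cancel (e.symm.trans hidx0.symm) (by omega) (by omega)
      omega
    · intro e
      have := mod_cancel e (by omega) (by omega)
      omega
    · intro e
      have e2 : ((i + m) % n + 1) % n = (i + (m + 1)) % n := sc_idx n i m
      rw [e2] at e
      have := mod_cancel (e.symm.trans hidx0.symm) (by omega) (by omega)
      omega
  have hall : ∀ k, k + 2 < n →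
      0 < det a b (v ((i + 2) % n)) * det a b (v ((i + (k + 2)) % n)) := by
    intro k
    induction k with
    | zero =>
      intro hk
      have := hne0 2 le_rfl hk
      rw [zero_add]
      exact mul_self_pos.2 this
    | succ k ih =>
      intro hk
      have e1 := ih (by omega)
      have e2 := hstep (k + 2) (by omega) (by omega)
      rw [show k + 1 + 2 = k + 2 + 1 by ring]
      set X := det a b (v ((i + 2) % n))
      set Y := det a b (v ((i + (k + 2)) % n))
      set Z := det a b (v ((i + (k + 2 + 1)) % n))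
      have h3 : 0 < (X * Z) * (Y * Y) := by
        have : (X * Z) * (Y * Y) = (X * Y) * (Y * Z) := by ring
        rw [this]; exact mul_pos e1 e2
      have hY : 0 < Y * Y := mul_self_pos.2 (by rintro hY; rw [hY] at e1; linarith)
      exact (mul_pos_iff_of_pos_right hY).1 h3
  -- every vertex is of the form
  have hform : ∀ z ∈ VV n v, det a b z ≠ 0 → 0 < det a b (v ((i + 2) % n)) * det a b z := by
    intro z hz hne
    obtain ⟨k, hk, rfl⟩ := mem_VV.1 hz
    have hkm : (i + (k + n - i) % n) % n = k := by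
      rw [Nat.add_mod_mod, show i + (k + n - i) = k + n by omega, Nat.add_mod_right]
      exact Nat.mod_eq_of_lt hk
    have hmlt : (k + n - i) % n < n := Nat.mod_lt _ (by omega)
    set m := (k + n - i) % n with hm
    have hm0 : m ≠ 0 := by
      intro e
      rw [e, hidx0] at hkm
      apply hne; rw [← hkm]; simp [haa]
    have hm1 : m ≠ 1 := by
      intro e
      rw [e, hidx1] at hkm
      apply hne; rw [← hkm]; simp [hbb]
    have := hall (m - 2) (by omega)
    rw [show m - 2 + 2 = m by omega, hkm] at this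
    exact this
  have q1 := hform x hx px.ne'
  have py' : det a b y < 0 := by rw [det_swap] at py; linarith
  have q2 := hform y hy py'.ne
  have q3 : 0 < det a b (v ((i + 2) % n)) := (mul_pos_iff_of_pos_right px).1 q1
  have := mul_neg_of_pos_of_neg q3 py'
  linarith

/-- counting polygon edges on the hull -/
theorem kappa (h : SP n v) {F : Finset (Pt × Pt)} (hPF : PP n v ⊆ F) :
    (hullV (VV n v)).card ≤ ((F \ Lf (VV n v) F) ∩ PP n v).card +
      (VV n v \ hullV (VV n v)).card := by
  have hn := h.hn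
  set H := (Finset.range n).filter (fun i => v i ∈ hullV (VV n v)) with hH
  have hHcard : (hullV (VV n v)).card ≤ H.card := by
    apply Finset.card_le_card_of_surjOn v
    intro x hx
    obtain ⟨i, hi, rfl⟩ := mem_VV.1 (Finset.mem_filter.1 (Finset.mem_coe.1 hx)).1
    exact ⟨i, Finset.mem_coe.2 (Finset.mem_filter.2 ⟨Finset.mem_range.2 hi, hx⟩), rfl⟩
  set H1 := H.filter (fun i => v (sc n i) ∈ hullV (VV n v)) with hH1
  set H2 := H.filter (fun i => ¬ v (sc n i) ∈ hullV (VV n v)) with hH2
  have hsplit : H1.card + H2.card = H.card := Finset.card_filter_add_card_filter_not _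
  have hH2card : H2.card ≤ (VV n v \ hullV (VV n v)).card := by
    apply Finset.card_le_card_of_injOn (fun i => v (sc n i))
    · intro i hi
      have hi' := Finset.mem_filter.1 (Finset.mem_coe.1 hi)
      exact Finset.mem_coe.2 (Finset.mem_sdiff.2 ⟨mem_VV.2 ⟨_, sc_lt hn, rfl⟩, hi'.2⟩)
    · intro i hi j hj e
      have hi' := Finset.mem_range.1 (Finset.mem_filter.1
        (Finset.mem_filter.1 (Finset.mem_coe.1 hi)).1).1
      have hj' := Finset.mem_range.1 (Finset.mem_filter.1
        (Finset.mem_filter.1 (Finset.mem_coe.1 hj)).1).1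
      exact sc_inj hi' hj' (h.inj _ (sc_lt hn) _ (sc_lt hn) e)
  have hH1card : H1.card ≤ ((F \ Lf (VV n v) F) ∩ PP n v).card := by
    have hex : ∀ i ∈ H1, ∃ e ∈ (F \ Lf (VV n v) F) ∩ PP n v,
        e = (v i, v (sc n i)) ∨ e = (v (sc n i), v i) := by
      intro i hi
      obtain ⟨hiH, hs⟩ := Finset.mem_filter.1 hi
      obtain ⟨hir, hiv⟩ := Finset.mem_filter.1 hiH
      have hin := Finset.mem_range.1 hir
      have := h.hull_edge hin hiv hs
      have hp1 : (v i, v (sc n i)) ∈ PP n v := mem_PP.2 (Or.inl ⟨i, hin, rfl, rfl⟩)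
      have hp2 : (v (sc n i), v i) ∈ PP n v := mem_PP.2 (Or.inr ⟨i, hin, rfl, rfl⟩)
      by_cases hl : (v i, v (sc n i)) ∈ Lf (VV n v) F
      · refine ⟨_, ?_, Or.inr rfl⟩
        rw [Finset.mem_inter, Finset.mem_sdiff]
        refine ⟨⟨hPF hp2, ?_⟩, hp2⟩
        intro hl2
        exact this ⟨(mem_Lf.1 hl).2, (mem_Lf.1 hl2).2⟩
      · refine ⟨_, ?_, Or.inl rfl⟩
        rw [Finset.mem_inter, Finset.mem_sdiff]
        exact ⟨⟨hPF hp1, hl⟩, hp1⟩
    choose! f hf1 hf2 using hex
    apply Finset.card_le_card_of_injOn f (fun i hi => hf1 i hi)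
    intro i hi j hj e
    have hi' := Finset.mem_range.1 (Finset.mem_filter.1
      (Finset.mem_filter.1 (Finset.mem_coe.1 hi)).1).1
    have hj' := Finset.mem_range.1 (Finset.mem_filter.1
      (Finset.mem_filter.1 (Finset.mem_coe.1 hj)).1).1
    have vinj := h.inj
    rcases hf2 i hi with e1 | e1 <;> rcases hf2 j hj with e2 | e2
    · rw [e1, e2] at e
      exact h.inj _ hi' _ hj' (Prod.mk.inj e).1
    · rw [e1, e2] at e
      have k1 := h.inj _ hi' _ (sc_lt hn) (Prod.mk.inj e).1
      have k2 := h.inj _ (sc_lt hn) _ hj' (Prod.mk.inj e).2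
      rw [k1] at k2
      exact absurd k2 (sc_sc_ne hn hj')
    · rw [e1, e2] at e
      have k1 := h.inj _ (sc_lt hn) _ hj' (Prod.mk.inj e).1
      have k2 := h.inj _ hi' _ (sc_lt hn) (Prod.mk.inj e).2
      rw [← k1] at k2
      exact absurd k2.symm (sc_sc_ne hn hi')
    · rw [e1, e2] at e
      exact h.inj _ hi' _ hj' (Prod.mk.inj e).2
  omega

end SP

end Pool.Agent.H134.Dg
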