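import Pool.Agent.H134.Dg.Fam

/-!
# Every half-plane at a vertex which contains a vertex contains an edge
-/

set_option autoImplicit false
set_option linter.unusedSimpArgs false

namespace Pool.Agent.H134.Dg

namespace Fam

variable {V : Finset Pt} {F : Finset (Pt × Pt)}

/-- the first edge hit by a segment `a x` -/
theorem firstHit (h : Fam V F) {a w x : Pt} (ha : a ∈ V) (hx : x ∈ V)
    (hw : 0 < lin w a x) (noV : ∀ z ∈ V, z ∉ openSegment ℝ a x) (hax : (a, x) ∉ F) :
    ∃ p q t, (p, q) ∈ F ∧ 0 < lin w a q ∧ 0 < t ∧ t < 1 ∧ lerp a x t ∈ openSegment ℝ p q ∧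
      det p q a ≠ 0 ∧
      ∀ r s, (r, s) ∈ F → ∀ t', 0 < t' → t' < t → lerp a x t' ∉ openSegment ℝ r s := by
  classical
  have hne : a ≠ x := by rintro rfl; simp at hw
  -- crossing edges are not collinear with `a`
  have hdet : ∀ p q, (p, q) ∈ F → ∀ t : ℝ, 0 < t → t < 1 → lerp a x t ∈ openSegment ℝ p q →
      det p q a ≠ 0 ∧ t = det p q a / (det p q a - det p q x) := by
    intro p q hpq t t0 t1 hz
    have e0 : (1 - t) * det p q a + t * det p q x = 0 := by
      rw [← aff_det]
      obtain ⟨u, u0, u1, e⟩ := mem_os.1 hz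
      rw [e, aff_det]; simp
    have hA : det p q a ≠ 0 := by
      intro hA
      have hB : det p q x = 0 := by
        rw [hA] at e0
        have : t * det p q x = 0 := by linarith
        exact (mul_eq_zero.1 this).resolve_left t0.ne'
      rcases overlap (h.ne hpq) hne hz (lerp_os t0 t1) hA hB (noV p (h.mem hpq))
        (noV q (h.mem' hpq)) (h.prim hpq ha) (h.prim hpq hx) with ⟨rfl, rfl⟩ | ⟨rfl, rfl⟩
      · exact hax hpq
      · exact hax (h.symm hpq)
    refine ⟨hA, ?_⟩
    have hAB : det p q a - det p q x ≠ 0 := by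
      intro hh
      apply hA
      nlinarith
    field_simp
    linarith
  have hex : ∃ p q, (p, q) ∈ F ∧ ∃ t, 0 < t ∧ t < 1 ∧ lerp a x t ∈ openSegment ℝ p q := by
    by_contra hcon
    push Not at hcon
    apply hax
    apply h.maxl ha hx hne noV
    intro p q hpq z hz hz'
    obtain ⟨t, t0, t1, rfl⟩ := mem_os.1 hz
    exact hcon p q hpq t t0 t1 hz'
  obtain ⟨p1, q1, hpq1, ht1⟩ := hex
  obtain ⟨⟨p, q⟩, hmem, hmin⟩ := Finset.exists_min_image
    (F.filter (fun e => ∃ t, 0 < t ∧ t < 1 ∧ lerp a x t ∈ openSegment ℝ e.1 e.2))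
    (fun e => det e.1 e.2 a / (det e.1 e.2 a - det e.1 e.2 x))
    ⟨(p1, q1), Finset.mem_filter.2 ⟨hpq1, ht1⟩⟩
  rw [Finset.mem_filter] at hmem
  obtain ⟨hpq, t, t0, t1, hz⟩ := hmem
  simp only at hz
  have hmin' : ∀ r s, (r, s) ∈ F → ∀ t', 0 < t' → t' < t →
      lerp a x t' ∉ openSegment ℝ r s := by
    intro r s hrs t' t'0 t't hz'
    have h1 := hmin (r, s) (Finset.mem_filter.2 ⟨hrs, t', t'0, by linarith, hz'⟩)
    simp only at h1
    rw [← (hdet p q hpq t t0 t1 hz).2, ← (hdet r s hrs t' t'0 (by linarith) hz').2] at h1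
    linarith
  have hA := (hdet p q hpq t t0 t1 hz).1
  have hlin : 0 < lin w a (lerp a x t) := by
    rw [aff_lin]; simp only [lin_self, mul_zero, zero_add]; positivity
  by_cases hq : 0 < lin w a q
  · exact ⟨p, q, t, hpq, hq, t0, t1, hz, hA, hmin'⟩
  · refine ⟨q, p, t, h.symm hpq, ?_, t0, t1, by rw [openSegment_symm]; exact hz, ?_, hmin'⟩
    · obtain ⟨u, u0, u1, e⟩ := mem_os.1 hz
      rw [e, aff_lin] at hlin
      push Not at hq
      by_contra hp
      push Not at hp
      nlinarith
    · rw [det_swap]; simpa using hA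

theorem lemmaS (h : Fam V F) {a w x1 : Pt} (ha : a ∈ V) (hx1 : x1 ∈ V) (hw1 : 0 < lin w a x1) :
    ∃ x, (a, x) ∈ F ∧ 0 < lin w a x := by
  classical
  by_contra hS
  push Not at hS
  obtain ⟨x, hx, hxmin⟩ := Finset.exists_min_image (V.filter (fun x => 0 < lin w a x))
    (fun x => lin w a x) ⟨x1, Finset.mem_filter.2 ⟨hx1, hw1⟩⟩
  rw [Finset.mem_filter] at hx
  obtain ⟨hxV, hw⟩ := hx
  have noV : ∀ z ∈ V, z ∉ openSegment ℝ a x := by
    intro z hz hzo
    obtain ⟨t, t0, t1, rfl⟩ := mem_os.1 hzo
    have e : lin w a (lerp a x t) = t * lin w a x := by rw [aff_lin]; simp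
    have := hxmin _ (Finset.mem_filter.2 ⟨hz, by rw [e]; positivity⟩)
    rw [e] at this
    nlinarith
  have hax : (a, x) ∉ F := by
    intro hax; have := hS x hax; linarith
  obtain ⟨p, q, t0, hpq, hq, t00, t01, hy, hA, hmin⟩ := h.firstHit ha hxV hw noV hax
  obtain ⟨u0, u00, u01, ey⟩ := mem_os.1 hy
  set y := lerp a x t0 with hydef
  have hqV : q ∈ V := h.mem' hpq
  have hliny : 0 < lin w a y := by
    rw [hydef, aff_lin]; simp only [lin_self, mul_zero, zero_add]; positivity
  -- coordinates
  have hD : det a y q ≠ 0 := by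
    have e : det a y q = (1 - u0) * det p q a := by
      rw [ey]; simp only [det, lerp]; ring
    rw [e]
    exact mul_ne_zero (by linarith) hA
  set D := det a y q with hDdef
  set al : Pt → ℝ := fun z => det q a z / D with hal
  set de : Pt → ℝ := fun z => det a y z / D with hde
  set ep : Pt → ℝ := fun z => det y q z / D with hep
  have aal : Aff al := (aff_det q a).divc D
  have ade : Aff de := (aff_det a y).divc D
  have aep : Aff ep := (aff_det y q).divc D
  have hsum : ∀ z, al z + de z + ep z = 1 := by
    intro z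
    have := det_sum a y q z
    simp only [hal, hde, hep]
    field_simp
    rw [hDdef]; linarith
  have al_a : al a = 0 := by simp [hal]
  have de_a : de a = 0 := by simp [hde]
  have ep_a : ep a = 1 := by have := hsum a; rw [al_a, de_a] at this; linarith
  have al_y : al y = 1 := by simp only [hal]; rw [det_rot' a y q]; exact div_self hD
  have de_y : de y = 0 := by simp [hde]
  have ep_y : ep y = 0 := by simp [hep]
  have al_q : al q = 0 := by simp [hal]
  have de_q : de q = 1 := by simp only [hde]; exact div_self hD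
  have ep_q : ep q = 0 := by simp [hep]
  have ep_p : ep p = 0 := by
    have := aep p q u0
    rw [← ey, ep_y, ep_q] at this
    have : (1 - u0) * ep p = 0 := by linarith
    exact (mul_eq_zero.1 this).resolve_left (by linarith)
  have ext' : ∀ z z', al z = al z' → de z = de z' → z = z' := by
    intro z z' h1 h2
    simp only [hal, hde] at h1 h2
    apply ext_det hD
    · field_simp at h2; exact h2
    · field_simp at h1; exact h1
  have hlin : ∀ z, lin w a z = al z * lin w a y + de z * lin w a q := by
    intro z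
    have : lin w a z * D = det q a z * lin w a y + det a y z * lin w a q := by
      rw [hDdef]; simp only [det, lin]; ring
    simp only [hal, hde]
    field_simp
    linarith
  -- positivity of `de`
  have hdepos : ∀ z ∈ V, z ≠ a → 0 ≤ al z → 0 ≤ de z → 0 ≤ ep z → 0 < de z := by
    intro z hz hza h1 h2 h3
    rcases eq_or_lt_of_le h2 with e | e
    · exfalso
      have hz' : z = lerp a y (al z) := by
        apply ext'
        · rw [aal a y]; rw [al_a, al_y]; ring
        · rw [ade a y]; rw [de_a, de_y, ← e]; ring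
      rcases eq_or_lt_of_le h1 with e1 | e1
      · apply hza; rw [hz', ← e1, lerp_zero]
      · have h4 := hsum z
        apply noV z hz
        rw [hz', hydef, lerp_left]
        apply lerp_os
        · positivity
        · nlinarith
    · exact e
  have hqa : q ≠ a := by rintro rfl; simp at hq
  -- the maximal slope
  obtain ⟨pm, hpm, hpmax⟩ := Finset.exists_max_image
    (V.filter (fun z => z ≠ a ∧ 0 ≤ al z ∧ 0 ≤ de z ∧ 0 ≤ ep z)) (fun z => al z / de z)
    ⟨q, Finset.mem_filter.2 ⟨hqV, hqa, by rw [al_q], by rw [de_q]; norm_num, by rw [ep_q]⟩⟩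
  rw [Finset.mem_filter] at hpm
  obtain ⟨hpmV, hpma, hpm1, hpm2, hpm3⟩ := hpm
  set K := al pm / de pm with hK
  have hK0 : 0 ≤ K := div_nonneg hpm1 hpm2
  have hmaxS : ∀ z ∈ V, z ≠ a → 0 ≤ al z → 0 ≤ de z → 0 ≤ ep z → al z ≤ K * de z := by
    intro z hz hza h1 h2 h3
    have h4 := hdepos z hz hza h1 h2 h3
    have := hpmax z (Finset.mem_filter.2 ⟨hz, hza, h1, h2, h3⟩)
    rwa [div_le_iff₀ h4] at this
  have hpmK : al pm = K * de pm := by
    have := hdepos pm hpmV hpma hpm1 hpm2 hpm3
    rw [hK]; field_simp
  obtain ⟨p', hp', hpmin⟩ := Finset.exists_min_image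
    (V.filter (fun z => z ≠ a ∧ 0 ≤ al z ∧ 0 ≤ de z ∧ 0 ≤ ep z ∧ al z = K * de z))
    (fun z => de z) ⟨pm, Finset.mem_filter.2 ⟨hpmV, hpma, hpm1, hpm2, hpm3, hpmK⟩⟩
  rw [Finset.mem_filter] at hp'
  obtain ⟨hp'V, hp'a, hp'1, hp'2, hp'3, hp'K⟩ := hp'
  have hp'de := hdepos p' hp'V hp'a hp'1 hp'2 hp'3
  have noV' : ∀ z ∈ V, z ∉ openSegment ℝ a p' := by
    intro z hz hzo
    obtain ⟨l, l0, l1, rfl⟩ := mem_os.1 hzo
    have e1 : al (lerp a p' l) = l * al p' := by rw [aal, al_a]; ring
    have e2 : de (lerp a p' l) = l * de p' := by rw [ade, de_a]; ring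
    have e3 : ep (lerp a p' l) = (1 - l) + l * ep p' := by rw [aep, ep_a]; ring
    have hza : lerp a p' l ≠ a := by
      intro hh
      rw [hh, de_a] at e2
      have : 0 < l * de p' := by positivity
      linarith
    have := hpmin _ (Finset.mem_filter.2 ⟨hz, hza, by rw [e1]; positivity,
      by rw [e2]; positivity, by rw [e3]; nlinarith, by rw [e1, e2, hp'K]; ring⟩)
    rw [e2] at this
    nlinarith
  have hp'lin : 0 < lin w a p' := by
    rw [hlin]
    have : 0 < de p' * lin w a q := by positivity
    have : 0 ≤ al p' * lin w a y := by positivity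
    linarith
  have hap' : (a, p') ∉ F := by
    intro hh; have := hS p' hh; linarith
  -- an edge crossing `a p'` gives a contradiction
  have key : ∀ r s, (r, s) ∈ F → ∀ l u : ℝ, 0 < l → l < 1 → 0 < u → u < 1 →
      lerp a p' l = lerp r s u → 0 ≤ al r - K * de r → False := by
    intro r s hrs l u l0 l1 u0' u1 e hk
    have hkz : al (lerp r s u) - K * de (lerp r s u) = 0 := by
      rw [← e, aal, ade, al_a, de_a, hp'K]; ring
    have hepz : 0 < ep (lerp r s u) := by
      rw [← e, aep, ep_a]; nlinarith
    have hdez : 0 < de (lerp r s u) := by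
      rw [← e, ade, de_a]; simp only [mul_zero, zero_add]; positivity
    have hzm : lerp a p' l ∈ openSegment ℝ r s := by rw [e]; exact lerp_os u0' u1
    rcases eq_or_lt_of_le hk with hk0 | hk0
    · have hks : al s - K * de s = 0 := by
        rw [aal, ade] at hkz
        have : u * (al s - K * de s) = 0 := by
          have : (1 - u) * (al r - K * de r) + u * (al s - K * de s) = 0 := by linarith
          rw [← hk0] at this; linarith
        exact (mul_eq_zero.1 this).resolve_left u0'.ne'
      have hcol : ∀ z, al z - K * de z = 0 → det a p' z = 0 := by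
        intro z hz
        have h1 : det a p' z * det a y q = det q a p' * det a y z - det a y p' * det q a z := by
          simp only [det]; ring
        have h2 : ∀ z, det q a z = al z * D := by intro z; simp only [hal]; field_simp
        have h3 : ∀ z, det a y z = de z * D := by intro z; simp only [hde]; field_simp
        rw [h2 p', h3 z, h3 p', h2 z, hp'K] at h1
        have h4 : al z = K * de z := by linarith
        rw [h4] at h1
        have : det a p' z * det a y q = 0 := by rw [h1]; ring
        exact (mul_eq_zero.1 this).resolve_right hD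
      rcases overlap (Ne.symm hp'a) (h.ne hrs) (lerp_os l0 l1) hzm (hcol r (by linarith))
        (hcol s hks) (h.prim hrs ha) (h.prim hrs hp'V) (noV' r (h.mem hrs))
        (noV' s (h.mem' hrs)) with ⟨rfl, rfl⟩ | ⟨rfl, rfl⟩
      · exact hap' hrs
      · exact hap' (h.symm hrs)
    · have hra : r ≠ a := by
        rintro rfl; rw [al_a, de_a] at hk0; simp at hk0
      have hout : de r < 0 ∨ ep r < 0 := by
        by_contra hcon
        push Not at hcon
        have : al r ≤ K * de r := hmaxS r (h.mem hrs) hra
          (by have : 0 ≤ K * de r := mul_nonneg hK0 hcon.1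
              linarith) hcon.1 hcon.2
        linarith
      obtain ⟨τ, τ0, τ1, hτ⟩ := exit2 hdez hepz
        (hout.imp (fun h => h.le) (fun h => h.le))
      have hτ1 : τ ≠ 1 := by
        rintro rfl
        simp only [sub_self, zero_mul, one_mul, zero_add] at hτ
        rcases hτ with ⟨h1, h2⟩ | ⟨h1, h2⟩ <;> rcases hout with h3 | h3 <;> linarith
      have hτ2 : τ < 1 := lt_of_le_of_ne τ1 hτ1
      rw [← ade, ← aep, lerp_to_left] at hτ
      have hkz' : 0 < al (lerp r s ((1 - τ) * u)) - K * de (lerp r s ((1 - τ) * u)) := by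
        rw [← lerp_to_left, aal, ade]
        have : (1 - τ) * al (lerp r s u) + τ * al r -
            K * ((1 - τ) * de (lerp r s u) + τ * de r) =
            (1 - τ) * (al (lerp r s u) - K * de (lerp r s u)) + τ * (al r - K * de r) := by ring
        rw [this, hkz]
        nlinarith
      have hzo' : lerp r s ((1 - τ) * u) ∈ openSegment ℝ r s := by
        apply lerp_os
        · apply mul_pos _ u0'; linarith
        · nlinarith
      have hsum' := hsum (lerp r s ((1 - τ) * u))
      set z' := lerp r s ((1 - τ) * u) with hz'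
      have hpqno : z' ∉ openSegment ℝ p q := by
        intro hh
        rcases h.nc hpq hrs hh hzo' with ⟨h1, h2⟩ | ⟨h1, h2⟩
        · rw [aep, h1, h2, ep_p, ep_q] at hepz; linarith
        · rw [aep, h1, h2, ep_p, ep_q] at hepz; linarith
      rcases hτ with ⟨h1, h2⟩ | ⟨h1, h2⟩
      · rw [h1] at hkz' hsum'
        have hz'a : z' = lerp a y (al z') := by
          apply ext'
          · rw [aal a y, al_a, al_y]; ring
          · rw [ade a y, de_a, de_y, h1]; ring
        rcases lt_or_eq_of_le (show al z' ≤ 1 by linarith) with h3 | h3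
        · rw [hydef, lerp_left] at hz'a
          apply hmin r s hrs (al z' * t0) (mul_pos (by linarith) t00)
            (by nlinarith)
          rw [← hz'a]; exact hzo'
        · rw [h3, lerp_one] at hz'a
          exact hpqno (by rw [hz'a]; exact hy)
      · have h3 : de z' < 1 := by
          have : 0 ≤ K * de z' := mul_nonneg hK0 h2
          linarith
        have hz'q : z' = lerp y q (de z') := by
          apply ext'
          · rw [aal y q, al_y, al_q]; linarith
          · rw [ade y q, de_y, de_q]; ring
        apply hpqno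
        rw [hz'q, ey, lerp_to_right]
        apply lerp_os
        · have : 0 ≤ 1 - de z' := by linarith
          nlinarith [mul_nonneg this u00.le]
        · have : 0 < 1 - de z' := by linarith
          have := mul_pos this (show 0 < 1 - u0 by linarith)
          nlinarith
  have hne : a ≠ p' := Ne.symm hp'a
  apply hap'
  apply h.maxl ha hp'V hne noV'
  intro r s hrs z hz hz'
  obtain ⟨l, l0, l1, rfl⟩ := mem_os.1 hz
  obtain ⟨u, u0', u1, e⟩ := mem_os.1 hz'
  by_cases hk : 0 ≤ al r - K * de r
  · exact key r s hrs l u l0 l1 u0' u1 e hk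
  · apply key s r (h.symm hrs) l (1 - u) l0 l1 (by linarith) (by linarith)
      (by rw [e, lerp_comm])
    have hkz : al (lerp r s u) - K * de (lerp r s u) = 0 := by
      rw [← e, aal, ade, al_a, de_a, hp'K]; ring
    rw [aal, ade] at hkz
    push Not at hk
    have h1 : (1 - u) * (al r - K * de r) + u * (al s - K * de s) = 0 := by linarith
    by_contra hcon
    push Not at hcon
    nlinarith

end Fam

end Pool.Agent.H134.Dg
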