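import Pool.Agent.H134.Dg.Hull

/-!
# The number of unmixed pairs of a simple polygon
-/

set_option autoImplicit false
set_option linter.unusedSimpArgs false

open scoped Classical

namespace Pool.Agent.H134.Dg

variable {n : ℕ} {v : ℕ → Pt}

theorem collinear_of_det {a p q : Pt} (hap : a ≠ p) (h : det a p q = 0) :
    Collinear ℝ {q, a, p} := by
  obtain ⟨t, ht⟩ := exists_lerp_of_det_eq_zero hap h
  rw [collinear_iff_of_mem (p₀ := a) (by simp)]
  refine ⟨p - a, ?_⟩
  intro x hx
  simp only [Set.mem_insert_iff, Set.mem_singleton_iff] at hx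
  rcases hx with rfl | rfl | rfl
  · refine ⟨t, ?_⟩
    rw [ht]
    ext <;> simp [lerp] <;> ring
  · exact ⟨0, by simp⟩
  · exact ⟨1, by simp⟩

namespace SP

/-- the count without assumption on the angles, and the count for proper angles -/
theorem counts (h : SP n v) :
    2 * n ≤ (Nn (VV n v) (PP n v)).card + 6 ∧
    ((∀ i < n, ¬ Collinear ℝ {v i, v ((i + 1) % n), v ((i + 2) % n)}) →
      3 * n ≤ (Nn (VV n v) (PP n v)).card + 9) := by
  obtain ⟨F, hF, hPF⟩ := h.exists_F
  have hn := h.hn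
  have hV : (VV n v).Nonempty := ⟨v 0, mem_VV.2 ⟨0, by omega, rfl⟩⟩
  have hcV := h.card_VV
  have hcP := card_PP_le (n := n) (v := v)
  have e1 := euler hF hV
  have e2 := hull_le hF h.noncol
  have e3 := h.kappa hPF
  have e4 := Finset.card_le_card (sub_Nn hF hPF (fun _ _ => symm'))
  have e5 := flips_card hF hPF (fun _ _ => symm')
  have e6 := Rr_ge hF (P := PP n v) (fun _ _ => symm')
  have e7 := Finset.card_sdiff_add_card_eq_card hPF
  have e8 : (F \ Lf (VV n v) F).card + (Lf (VV n v) F).card = F.card :=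
    Finset.card_sdiff_add_card_eq_card (Finset.filter_subset _ _)
  have e9 : (VV n v \ hullV (VV n v)).card + (hullV (VV n v)).card = (VV n v).card :=
    Finset.card_sdiff_add_card_eq_card (Finset.filter_subset _ _)
  have e10 : (((F \ PP n v) \ Lf (VV n v) F)).card +
      ((F \ Lf (VV n v) F) ∩ PP n v).card = (F \ Lf (VV n v) F).card := by
    have : (F \ PP n v) \ Lf (VV n v) F = (F \ Lf (VV n v) F) \ PP n v := by
      ext x; simp only [Finset.mem_sdiff]; tauto
    rw [this]
    exact Finset.card_sdiff_add_card_inter _ _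
  constructor
  · omega
  · intro hns
    have hP : ∀ a ∈ VV n v, ∃ p q, (a, p) ∈ PP n v ∧ (a, q) ∈ PP n v ∧ det a p q ≠ 0 := by
      intro a ha
      obtain ⟨i, hi, rfl⟩ := mem_VV.1 ha
      have hk : pc n i < n := pc_lt hn
      have hks : sc n (pc n i) = i := sc_pc hn hi
      refine ⟨v (sc n i), v (pc n i), mem_PP.2 (Or.inl ⟨i, hi, rfl, rfl⟩),
        mem_PP.2 (Or.inr ⟨pc n i, hk, by rw [hks], rfl⟩), ?_⟩
      intro hd
      apply hns (pc n i) hk
      have k1 : (pc n i + 1) % n = i := hks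
      have k2 : (pc n i + 2) % n = sc n i := by
        have : (pc n i + 2) % n = ((pc n i + 1) % n + 1) % n := by
          rw [Nat.mod_add_mod]
        rw [this, k1]; rfl
      rw [k1, k2]
      exact collinear_of_det (h.ne_sc hi) hd
    have e11 := bad_le hF hPF hP
    omega

end SP

/-- ordered pairs of nonadjacent indices -/
noncomputable def Od (n : ℕ) : Finset (ℕ × ℕ) :=
  (Finset.range n ×ˢ Finset.range n).filter
    (fun p => p.1 ≠ p.2 ∧ p.2 ≠ sc n p.1 ∧ p.1 ≠ sc n p.2)

theorem card_Od (hn : 3 ≤ n) : (Od n).card + 3 * n ≤ n * n := by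
  set D0 := (Finset.range n).image (fun i => (i, i)) with hD0
  set D1 := (Finset.range n).image (fun i => (i, sc n i)) with hD1
  set D2 := (Finset.range n).image (fun i => (sc n i, i)) with hD2
  have c0 : D0.card = n := by
    rw [hD0, Finset.card_image_of_injective _ (fun a b e => (Prod.mk.inj e).1),
      Finset.card_range]
  have c1 : D1.card = n := by
    rw [hD1, Finset.card_image_of_injective _ (fun a b e => (Prod.mk.inj e).1),
      Finset.card_range]
  have c2 : D2.card = n := by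
    rw [hD2, Finset.card_image_of_injective _ (fun a b e => (Prod.mk.inj e).2),
      Finset.card_range]
  have d01 : Disjoint D0 D1 := by
    rw [Finset.disjoint_left]
    rintro ⟨a, b⟩ h0 h1
    simp only [hD0, hD1, Finset.mem_image, Finset.mem_range, Prod.mk.injEq] at h0 h1
    obtain ⟨i, hi, rfl, rfl⟩ := h0
    obtain ⟨j, hj, rfl, h3⟩ := h1
    exact sc_ne hn hj h3
  have d012 : Disjoint (D0 ∪ D1) D2 := by
    rw [Finset.disjoint_left]
    rintro ⟨a, b⟩ h0 h2
    simp only [hD0, hD1, hD2, Finset.mem_union, Finset.mem_image, Finset.mem_range,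
      Prod.mk.injEq] at h0 h2
    obtain ⟨j, hj, rfl, rfl⟩ := h2
    rcases h0 with ⟨i, hi, h4, rfl⟩ | ⟨i, hi, rfl, h4⟩
    · exact sc_ne hn hi h4.symm
    · exact sc_sc_ne hn hj h4
  have dO : Disjoint (D0 ∪ D1 ∪ D2) (Od n) := by
    rw [Finset.disjoint_left]
    rintro ⟨a, b⟩ h0 h2
    simp only [Od, Finset.mem_filter] at h2
    obtain ⟨-, k1, k2, k3⟩ := h2
    simp only [hD0, hD1, hD2, Finset.mem_union, Finset.mem_image, Finset.mem_range,
      Prod.mk.injEq] at h0
    rcases h0 with (⟨i, hi, rfl, rfl⟩ | ⟨i, hi, rfl, rfl⟩) | ⟨i, hi, rfl, rfl⟩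
    · exact k1 rfl
    · exact k2 rfl
    · exact k3 rfl
  have hsub : (D0 ∪ D1 ∪ D2) ∪ Od n ⊆ Finset.range n ×ˢ Finset.range n := by
    rintro ⟨a, b⟩ h
    rcases Finset.mem_union.1 h with h | h
    · simp only [hD0, hD1, hD2, Finset.mem_union, Finset.mem_image, Finset.mem_range,
        Prod.mk.injEq] at h
      rw [Finset.mem_product, Finset.mem_range, Finset.mem_range]
      rcases h with (⟨i, hi, rfl, rfl⟩ | ⟨i, hi, rfl, rfl⟩) | ⟨i, hi, rfl, rfl⟩
      · exact ⟨hi, hi⟩
      · exact ⟨hi, sc_lt hn⟩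
      · exact ⟨sc_lt hn, hi⟩
    · exact (Finset.mem_filter.1 h).1
  have := Finset.card_le_card hsub
  rw [Finset.card_union_of_disjoint dO, Finset.card_union_of_disjoint d012,
    Finset.card_union_of_disjoint d01, Finset.card_product, Finset.card_range, c0, c1, c2] at this
  omega

/-- the boundary curve -/
def bd (n : ℕ) (v : ℕ → Pt) : Set Pt := {z | ∃ i < n, z ∈ segment ℝ (v i) (v ((i + 1) % n))}

theorem pairs_count (h : SP n v) (M : Finset (ℕ × ℕ))
    (hM : ∀ p ∈ M, (p.1 + 1 < p.2 ∧ p.2 < n ∧ ¬ (p.1 = 0 ∧ p.2 = n - 1)) ∧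
      ¬ Disjoint (openSegment ℝ (v p.1) (v p.2)) (bd n v)) :
    2 * M.card + (Nn (VV n v) (PP n v)).card + 3 * n ≤ n * n := by
  have hn := h.hn
  have hO := card_Od hn
  set N' := (Od n).filter (fun p => Disjoint (openSegment ℝ (v p.1) (v p.2)) (bd n v)) with hN'
  have hN : (Nn (VV n v) (PP n v)).card ≤ N'.card := by
    apply Finset.card_le_card_of_surjOn (fun p => (v p.1, v p.2))
    rintro ⟨x, y⟩ hxy
    rw [Finset.mem_coe, Nn, Finset.mem_filter, Finset.mem_product] at hxy
    obtain ⟨⟨hx, hy⟩, hne, hnP, hdis⟩ := hxy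
    simp only at hne hnP hdis hx hy
    obtain ⟨j, hj, rfl⟩ := mem_VV.1 hx
    obtain ⟨k, hk, rfl⟩ := mem_VV.1 hy
    refine ⟨(j, k), ?_, rfl⟩
    rw [Finset.mem_coe, hN', Finset.mem_filter, Od, Finset.mem_filter, Finset.mem_product]
    refine ⟨⟨⟨Finset.mem_range.2 hj, Finset.mem_range.2 hk⟩, ?_, ?_, ?_⟩, ?_⟩
    · simp only; rintro rfl; exact hne rfl
    · simp only; rintro rfl; exact hnP (mem_PP.2 (Or.inl ⟨j, hj, rfl, rfl⟩))
    · simp only; rintro rfl; exact hnP (mem_PP.2 (Or.inr ⟨k, hk, rfl, rfl⟩))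
    · simp only
      rw [Set.disjoint_left]
      rintro z hz ⟨i, hi, hzi⟩
      exact hdis z hz _ _ (mem_PP.2 (Or.inl ⟨i, hi, rfl, rfl⟩)) hzi
  have hlt : ∀ p ∈ M, p.1 < p.2 := fun p hp => by have := (hM p hp).1; omega
  have hMO : M ⊆ Od n := by
    rintro ⟨a, b⟩ hp
    obtain ⟨⟨h1, h2, h3⟩, -⟩ := hM _ hp
    simp only at h1 h2 h3
    rw [Od, Finset.mem_filter, Finset.mem_product, Finset.mem_range, Finset.mem_range]
    simp only
    have ha : a < n := by omega
    refine ⟨⟨ha, h2⟩, by omega, ?_, ?_⟩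
    · rcases sc_eq ha with e | e <;> omega
    · rcases sc_eq h2 with e | e <;> omega
  have hMO' : M.image Prod.swap ⊆ Od n := by
    intro x hx
    obtain ⟨⟨a, b⟩, hp, rfl⟩ := Finset.mem_image.1 hx
    have := hMO hp
    rw [Od, Finset.mem_filter, Finset.mem_product] at this ⊢
    exact ⟨⟨this.1.2, this.1.1⟩, this.2.1.symm, this.2.2.2, this.2.2.1⟩
  have d1 : Disjoint M (M.image Prod.swap) := by
    rw [Finset.disjoint_left]
    intro x hx hx'
    obtain ⟨⟨a, b⟩, hp, rfl⟩ := Finset.mem_image.1 hx'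
    have k1 := hlt _ hp
    have k2 := hlt _ hx
    simp only [Prod.fst_swap, Prod.snd_swap] at k1 k2
    omega
  have d2 : Disjoint (M ∪ M.image Prod.swap) N' := by
    rw [Finset.disjoint_left]
    intro x hx hx'
    have hd := (Finset.mem_filter.1 hx').2
    rcases Finset.mem_union.1 hx with hx | hx
    · exact (hM x hx).2 hd
    · obtain ⟨⟨a, b⟩, hp, rfl⟩ := Finset.mem_image.1 hx
      simp only [Prod.fst_swap, Prod.snd_swap] at hd
      rw [openSegment_symm] at hd
      exact (hM _ hp).2 hd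
  have hsub : M ∪ M.image Prod.swap ∪ N' ⊆ Od n :=
    Finset.union_subset (Finset.union_subset hMO hMO') (Finset.filter_subset _ _)
  have := Finset.card_le_card hsub
  rw [Finset.card_union_of_disjoint d2, Finset.card_union_of_disjoint d1,
    Finset.card_image_of_injective _ Prod.swap_injective] at this
  omega

/-- **Upper bounds for the number of diagonals meeting the boundary.** -/
theorem upper (h : SP n v) (M : Finset (ℕ × ℕ))
    (hM : ∀ p ∈ M, (p.1 + 1 < p.2 ∧ p.2 < n ∧ ¬ (p.1 = 0 ∧ p.2 = n - 1)) ∧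
      ¬ Disjoint (openSegment ℝ (v p.1) (v p.2)) (bd n v)) :
    M.card ≤ (n - 2) * (n - 3) / 2 ∧
    ((∀ i < n, ¬ Collinear ℝ {v i, v ((i + 1) % n), v ((i + 2) % n)}) →
      M.card ≤ (n - 3) ^ 2 / 2) := by
  have hn := h.hn
  have h1 := pairs_count h M hM
  obtain ⟨h2, h3⟩ := h.counts
  obtain ⟨k, rfl⟩ := Nat.exists_eq_add_of_le hn
  have e1 : 3 + k - 2 = k + 1 := by omega
  have e2 : 3 + k - 3 = k := by omega
  rw [e1, e2]
  constructor
  · rw [Nat.le_div_iff_mul_le (by norm_num)]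
    nlinarith
  · intro hns
    have := h3 hns
    rw [Nat.le_div_iff_mul_le (by norm_num)]
    nlinarith

end Pool.Agent.H134.Dg
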