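import Pool.Agent.H134.Dg.Total

/-!
# Simple polygons
-/

set_option autoImplicit false
set_option linter.unusedSimpArgs false

open scoped Classical

namespace Pool.Agent.H134.Dg

/-- a simple polygon (straight angles allowed) -/
structure SP (n : ℕ) (v : ℕ → Pt) : Prop where
  hn : 3 ≤ n
  inj : ∀ i < n, ∀ j < n, v i = v j → i = j
  adj : ∀ i < n, segment ℝ (v i) (v ((i + 1) % n)) ∩
    segment ℝ (v ((i + 1) % n)) (v (((i + 1) % n + 1) % n)) = {v ((i + 1) % n)}
  disj : ∀ i < n, ∀ j < n, i ≠ j → j ≠ (i + 1) % n → i ≠ (j + 1) % n →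
    Disjoint (segment ℝ (v i) (v ((i + 1) % n))) (segment ℝ (v j) (v ((j + 1) % n)))

/-- cyclic successor -/
def sc (n i : ℕ) : ℕ := (i + 1) % n

/-- cyclic predecessor -/
def pc (n i : ℕ) : ℕ := (i + (n - 1)) % n

/-- the vertices -/
noncomputable def VV (n : ℕ) (v : ℕ → Pt) : Finset Pt := (Finset.range n).image v

/-- the boundary darts -/
noncomputable def PP (n : ℕ) (v : ℕ → Pt) : Finset (Pt × Pt) :=
  (Finset.range n).image (fun i => (v i, v (sc n i))) ∪
    (Finset.range n).image (fun i => (v (sc n i), v i))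

theorem sc_lt {n i : ℕ} (hn : 3 ≤ n) : sc n i < n := Nat.mod_lt _ (by omega)
theorem pc_lt {n i : ℕ} (hn : 3 ≤ n) : pc n i < n := Nat.mod_lt _ (by omega)

theorem sc_eq {n i : ℕ} (hi : i < n) : (i + 1 < n ∧ sc n i = i + 1) ∨ (i + 1 = n ∧ sc n i = 0) := by
  unfold sc
  rcases Nat.lt_or_ge (i + 1) n with h | h
  · left; exact ⟨h, Nat.mod_eq_of_lt h⟩
  · right
    have : i + 1 = n := by omega
    exact ⟨this, by rw [this, Nat.mod_self]⟩

theorem pc_eq {n i : ℕ} (hn : 3 ≤ n) (hi : i < n) :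
    (0 < i ∧ pc n i = i - 1) ∨ (i = 0 ∧ pc n i = n - 1) := by
  unfold pc
  rcases Nat.eq_zero_or_pos i with h | h
  · right
    exact ⟨h, by rw [h, zero_add]; exact Nat.mod_eq_of_lt (by omega)⟩
  · left
    refine ⟨h, ?_⟩
    have : i + (n - 1) = (i - 1) + n := by omega
    rw [this, Nat.add_mod_right]
    exact Nat.mod_eq_of_lt (by omega)

theorem sc_ne {n i : ℕ} (hn : 3 ≤ n) (hi : i < n) : sc n i ≠ i := by
  rcases sc_eq hi with h | h <;> omega

theorem sc_inj {n i j : ℕ} (hi : i < n) (hj : j < n) (h : sc n i = sc n j) : i = j := by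
  rcases sc_eq hi with h1 | h1 <;> rcases sc_eq hj with h2 | h2 <;> omega

theorem sc_sc_ne {n i : ℕ} (hn : 3 ≤ n) (hi : i < n) : sc n (sc n i) ≠ i := by
  have := sc_lt (n := n) (i := i) hn
  rcases sc_eq hi with h1 | h1 <;> rcases sc_eq this with h2 | h2 <;> omega

theorem sc_pc {n i : ℕ} (hn : 3 ≤ n) (hi : i < n) : sc n (pc n i) = i := by
  have := pc_lt (n := n) (i := i) hn
  rcases pc_eq hn hi with h1 | h1 <;> rcases sc_eq this with h2 | h2 <;> omega

variable {n : ℕ} {v : ℕ → Pt}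

theorem mem_VV {x : Pt} : x ∈ VV n v ↔ ∃ i < n, v i = x := by simp [VV]

theorem mem_PP {a b : Pt} : (a, b) ∈ PP n v ↔
    (∃ i < n, v i = a ∧ v (sc n i) = b) ∨ (∃ i < n, v (sc n i) = a ∧ v i = b) := by
  simp [PP]

namespace SP

theorem ne_sc (h : SP n v) {i : ℕ} (hi : i < n) : v i ≠ v (sc n i) := fun e =>
  sc_ne h.hn hi (h.inj i hi _ (sc_lt h.hn) e).symm

theorem symm' {a b : Pt} (hab : (a, b) ∈ PP n v) : (b, a) ∈ PP n v := by
  rw [mem_PP] at hab ⊢
  rcases hab with ⟨i, hi, h1, h2⟩ | ⟨i, hi, h1, h2⟩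
  · exact Or.inr ⟨i, hi, h2, h1⟩
  · exact Or.inl ⟨i, hi, h2, h1⟩

theorem prim_idx (h : SP n v) {i k : ℕ} (hi : i < n) (hk : k < n) :
    v k ∉ openSegment ℝ (v i) (v (sc n i)) := by
  intro hm
  have hne := h.ne_sc hi
  by_cases h1 : k = i
  · rw [h1] at hm; exact left_not_mem_os hne hm
  by_cases h2 : k = sc n i
  · rw [h2] at hm; exact right_not_mem_os hne hm
  have hs := openSegment_subset_segment ℝ _ _ hm
  by_cases h3 : i = sc n k
  · have := h.adj k hk
    have h4 : v k ∈ segment ℝ (v k) (v ((k + 1) % n)) ∩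
        segment ℝ (v ((k + 1) % n)) (v (((k + 1) % n + 1) % n)) := by
      refine ⟨left_mem_segment ℝ _ _, ?_⟩
      rw [show (k + 1) % n = sc n k from rfl, ← h3]
      exact hs
    rw [this, Set.mem_singleton_iff] at h4
    exact sc_ne h.hn hk (h.inj _ hk _ (sc_lt h.hn) h4).symm
  · exact Set.disjoint_left.1 (h.disj i hi k hk (fun e => h1 e.symm) h2 h3) hs
      (left_mem_segment ℝ _ _)

theorem nc_idx (h : SP n v) {i j : ℕ} {z : Pt} (hi : i < n) (hj : j < n)
    (h1 : z ∈ openSegment ℝ (v i) (v (sc n i))) (h2 : z ∈ openSegment ℝ (v j) (v (sc n j))) :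
    i = j := by
  by_contra hne
  have s1 := openSegment_subset_segment ℝ _ _ h1
  have s2 := openSegment_subset_segment ℝ _ _ h2
  by_cases h3 : j = sc n i
  · have h4 : z ∈ segment ℝ (v i) (v ((i + 1) % n)) ∩
        segment ℝ (v ((i + 1) % n)) (v (((i + 1) % n + 1) % n)) := by
      refine ⟨s1, ?_⟩
      rw [show (i + 1) % n = sc n i from rfl, ← h3]
      exact s2
    rw [h.adj i hi, Set.mem_singleton_iff] at h4
    rw [h4] at h1
    exact right_not_mem_os (h.ne_sc hi) h1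
  · by_cases h5 : i = sc n j
    · have h4 : z ∈ segment ℝ (v j) (v ((j + 1) % n)) ∩
          segment ℝ (v ((j + 1) % n)) (v (((j + 1) % n + 1) % n)) := by
        refine ⟨s2, ?_⟩
        rw [show (j + 1) % n = sc n j from rfl, ← h5]
        exact s1
      rw [h.adj j hj, Set.mem_singleton_iff] at h4
      rw [h4] at h2
      exact right_not_mem_os (h.ne_sc hj) h2
    · exact Set.disjoint_left.1 (h.disj i hi j hj hne h3 h5) s1 s2

theorem mem1 (h : SP n v) {a b : Pt} (hab : (a, b) ∈ PP n v) : a ∈ VV n v := by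
  rw [mem_VV]
  rcases mem_PP.1 hab with ⟨i, hi, h1, h2⟩ | ⟨i, hi, h1, h2⟩
  · exact ⟨i, hi, h1⟩
  · exact ⟨sc n i, sc_lt h.hn, h1⟩

theorem ne1 (h : SP n v) {a b : Pt} (hab : (a, b) ∈ PP n v) : a ≠ b := by
  rcases mem_PP.1 hab with ⟨i, hi, rfl, rfl⟩ | ⟨i, hi, rfl, rfl⟩
  · exact h.ne_sc hi
  · exact (h.ne_sc hi).symm

theorem prim1 (h : SP n v) {a b x : Pt} (hab : (a, b) ∈ PP n v) (hx : x ∈ VV n v) :
    x ∉ openSegment ℝ a b := by
  obtain ⟨k, hk, rfl⟩ := mem_VV.1 hx
  rcases mem_PP.1 hab with ⟨i, hi, rfl, rfl⟩ | ⟨i, hi, rfl, rfl⟩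
  · exact h.prim_idx hi hk
  · rw [openSegment_symm]; exact h.prim_idx hi hk

theorem nc1 (h : SP n v) {a b c d z : Pt} (hab : (a, b) ∈ PP n v) (hcd : (c, d) ∈ PP n v)
    (h1 : z ∈ openSegment ℝ a b) (h2 : z ∈ openSegment ℝ c d) :
    (c = a ∧ d = b) ∨ (c = b ∧ d = a) := by
  rcases mem_PP.1 hab with ⟨i, hi, rfl, rfl⟩ | ⟨i, hi, rfl, rfl⟩ <;>
  rcases mem_PP.1 hcd with ⟨j, hj, rfl, rfl⟩ | ⟨j, hj, rfl, rfl⟩
  · have := h.nc_idx hi hj h1 h2
    subst this; exact Or.inl ⟨rfl, rfl⟩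
  · rw [openSegment_symm] at h2
    have := h.nc_idx hi hj h1 h2
    subst this; exact Or.inr ⟨rfl, rfl⟩
  · rw [openSegment_symm] at h1
    have := h.nc_idx hi hj h1 h2
    subst this; exact Or.inr ⟨rfl, rfl⟩
  · rw [openSegment_symm] at h1 h2
    have := h.nc_idx hi hj h1 h2
    subst this; exact Or.inl ⟨rfl, rfl⟩

theorem card_VV (h : SP n v) : (VV n v).card = n := by
  rw [VV, Finset.card_image_of_injOn, Finset.card_range]
  intro i hi j hj e
  simp only [Finset.coe_range, Set.mem_Iio] at hi hj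
  exact h.inj i hi j hj e

theorem card_PP_le : (PP n v).card ≤ 2 * n := by
  have h1 := Finset.card_union_le ((Finset.range n).image (fun i => (v i, v (sc n i))))
    ((Finset.range n).image (fun i => (v (sc n i), v i)))
  have h2 : ((Finset.range n).image (fun i => (v i, v (sc n i)))).card ≤ (Finset.range n).card :=
    Finset.card_image_le
  have h3 : ((Finset.range n).image (fun i => (v (sc n i), v i))).card ≤ (Finset.range n).card :=
    Finset.card_image_le
  rw [Finset.card_range] at h2 h3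
  rw [PP]
  omega

/-- the vertices are not collinear -/
theorem noncol (h : SP n v) : ∀ a ∈ VV n v, ∀ b ∈ VV n v, a ≠ b →
    ∃ x ∈ VV n v, det a b x ≠ 0 := by
  intro a ha b hb hab
  by_contra hcon
  push Not at hcon
  have hpar : ∀ i < n, ∃ s, v i = lerp a b s := fun i hi =>
    exists_lerp_of_det_eq_zero hab (hcon _ (mem_VV.2 ⟨i, hi, rfl⟩))
  choose! s hs using hpar
  have hsinj : ∀ i < n, ∀ j < n, s i = s j → i = j := by
    intro i hi j hj e
    apply h.inj i hi j hj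
    rw [hs i hi, hs j hj, e]
  obtain ⟨i, hi, hmax⟩ := Finset.exists_max_image (Finset.range n) s
    ⟨0, Finset.mem_range.2 (by have := h.hn; omega)⟩
  rw [Finset.mem_range] at hi
  have hk : pc n i < n := pc_lt h.hn
  have hj : sc n i < n := sc_lt h.hn
  have hki : sc n (pc n i) = i := sc_pc h.hn hi
  have e1 : s (sc n i) < s i := by
    apply lt_of_le_of_ne (hmax _ (Finset.mem_range.2 hj))
    intro e; exact sc_ne h.hn hi (hsinj _ hj _ hi e)
  have e2 : s (pc n i) < s i := by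
    apply lt_of_le_of_ne (hmax _ (Finset.mem_range.2 hk))
    intro e
    have := hsinj _ hk _ hi e
    rw [this] at hki
    exact sc_ne h.hn hi hki
  have mid : ∀ p q r : ℝ, p < q → q < r → lerp a b q ∈ openSegment ℝ (lerp a b p) (lerp a b r) := by
    intro p q r h1 h2
    refine mem_os.2 ⟨(q - p) / (r - p), div_pos (by linarith) (by linarith),
      by rw [div_lt_one (by linarith)]; linarith, ?_⟩
    rw [lerp_lerp]
    congr 1
    have : r - p ≠ 0 := by linarith
    field_simp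
    ring
  rcases lt_trichotomy (s (pc n i)) (s (sc n i)) with h1 | h1 | h1
  · have := mid _ _ _ h1 e1
    rw [← hs _ hj, ← hs _ hk, ← hs _ hi] at this
    have h2 := h.prim_idx hk hj
    rw [hki] at h2
    exact h2 this
  · have := hsinj _ hk _ hj h1
    rw [this] at hki
    exact sc_sc_ne h.hn hi hki
  · have := mid _ _ _ h1 e2
    rw [← hs _ hj, ← hs _ hk, ← hs _ hi, openSegment_symm] at this
    exact h.prim_idx hi hk this

theorem exists_F (h : SP n v) : ∃ F, Fam (VV n v) F ∧ PP n v ⊆ F :=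
  exists_Fam (VV n v) (PP n v) (fun _ _ => h.mem1) (fun _ _ => symm') (fun _ _ => h.ne1)
    (fun _ _ _ => h.prim1) (fun _ _ _ _ _ => h.nc1)

end SP

end Pool.Agent.H134.Dg
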