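import Pool.Agent.H134.Dg.Count

/-!
# Edges of the family and their flips are unmixed pairs
-/

set_option autoImplicit false
set_option linter.unusedSimpArgs false

open scoped Classical

namespace Pool.Agent.H134.Dg

variable {V : Finset Pt} {F P : Finset (Pt × Pt)}

theorem sub_Nn (h : Fam V F) (hPF : P ⊆ F) (hPs : ∀ a b, (a, b) ∈ P → (b, a) ∈ P) :
    F \ P ⊆ Nn V P := by
  rintro ⟨a, b⟩ hab
  obtain ⟨hF, hnP⟩ := Finset.mem_sdiff.1 hab
  simp only [Nn, Finset.mem_filter, Finset.mem_product]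
  refine ⟨⟨h.mem hF, h.mem' hF⟩, h.ne hF, hnP, ?_⟩
  intro z hz p q hpq hz'
  obtain ⟨t, t0, t1, rfl⟩ := mem_sg.1 hz'
  rcases eq_or_lt_of_le t0 with e | t0'
  · rw [← e, lerp_zero] at hz
    exact h.prim hF (h.mem (hPF hpq)) hz
  rcases eq_or_lt_of_le t1 with e | t1'
  · rw [e, lerp_one] at hz
    exact h.prim hF (h.mem' (hPF hpq)) hz
  rcases h.nc hF (hPF hpq) hz (lerp_os t0' t1') with ⟨rfl, rfl⟩ | ⟨rfl, rfl⟩
  · exact hnP hpq
  · exact hnP (hPs _ _ hpq)

theorem flips_card (h : Fam V F) (hPF : P ⊆ F) (hPs : ∀ a b, (a, b) ∈ P → (b, a) ∈ P) :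
    (F \ P).card + (Rr V F P).card ≤ (Nn V P).card := by
  have hex : ∀ e ∈ Rr V F P, ∃ c d, IsFace V F e.1 e.2 c ∧ IsFace V F e.2 e.1 d ∧
      0 < det d e.2 c ∧ 0 < det c e.1 d := fun e he => (Finset.mem_filter.1 he).2
  choose! c d f1 f2 g1 g2 using hex
  have hF : ∀ e ∈ Rr V F P, e ∈ F ∧ e ∉ P := fun e he =>
    Finset.mem_sdiff.1 (Finset.mem_filter.1 he).1
  have hnF : ∀ e ∈ Rr V F P, (c e, d e) ∉ F := by
    intro e he hcd
    obtain ⟨s, s0, s1, hs⟩ := Fam.flip_cross (f1 e he).pos (f2 e he).pos (g1 e he) (g2 e he)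
    have p1 := (f1 e he).pos
    rcases h.nc (f1 e he).e1 hcd hs (lerp_os s0 s1) with ⟨k1, k2⟩ | ⟨k1, k2⟩
    · rw [k1] at p1; simp at p1
    · rw [k1] at p1; simp at p1
  have hmaps : ∀ e ∈ Rr V F P, (c e, d e) ∈ Nn V P := by
    intro e he
    simp only [Nn, Finset.mem_filter, Finset.mem_product]
    refine ⟨⟨h.mem (f1 e he).e3, h.mem (f2 e he).e3⟩, ?_, fun hh => hnF e he (hPF hh), ?_⟩
    · intro hcd
      have := g1 e he
      rw [hcd] at this; simp at this
    · intro z hz p q hpq hz'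
      have hab := hF e he
      rcases (h.flip_spec (f1 e he) (f2 e he) (g1 e he) (g2 e he) (hPF hpq) hz hz').2 with
        ⟨k1, k2⟩ | ⟨k1, k2⟩
      · exact hab.2 (by rw [k1, k2] at hpq; exact hpq)
      · exact hab.2 (by rw [k1, k2] at hpq; exact hPs _ _ hpq)
  have hinj : Set.InjOn (fun e => (c e, d e)) (Rr V F P : Set (Pt × Pt)) := by
    intro e he e' he' hee
    obtain ⟨hc, hd⟩ := Prod.mk.inj hee
    rw [Finset.mem_coe] at he he'
    obtain ⟨s, s0, s1, hs⟩ := Fam.flip_cross (f1 e he).pos (f2 e he).pos (g1 e he) (g2 e he)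
    have h1 : lerp (c e) (d e) s ∈ openSegment ℝ (c e') (d e') := by
      rw [← hc, ← hd]; exact lerp_os s0 s1
    rcases (h.flip_spec (f1 e' he') (f2 e' he') (g1 e' he') (g2 e' he') (f1 e he).e1 h1
      (openSegment_subset_segment ℝ _ _ hs)).2 with ⟨k1, k2⟩ | ⟨k1, k2⟩
    · exact Prod.ext k1 k2
    · exfalso
      have p1 := (f1 e he).pos
      have p2 := (f1 e' he').pos
      rw [← k1, ← k2, ← hc, det_swap] at p2
      linarith
  have hdis : Disjoint (F \ P) ((Rr V F P).image (fun e => (c e, d e))) := by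
    rw [Finset.disjoint_left]
    intro x hx hx'
    obtain ⟨e, he, rfl⟩ := Finset.mem_image.1 hx'
    exact hnF e he (Finset.mem_sdiff.1 hx).1
  have hsub : (F \ P) ∪ ((Rr V F P).image (fun e => (c e, d e))) ⊆ Nn V P := by
    intro x hx
    rcases Finset.mem_union.1 hx with hx | hx
    · exact sub_Nn h hPF hPs hx
    · obtain ⟨e, he, rfl⟩ := Finset.mem_image.1 hx
      exact hmaps e he
  have h1 := Finset.card_le_card hsub
  rw [Finset.card_union_of_disjoint hdis, Finset.card_image_of_injOn hinj] at h1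
  exact h1

theorem Rr_ge (h : Fam V F) (hPs : ∀ a b, (a, b) ∈ P → (b, a) ∈ P) :
    (F \ P).card ≤ (Rr V F P).card + 2 * ((F \ P) \ Lf V F).card + 2 * (badD V F P).card := by
  set Lid := (F \ P) \ Lf V F with hLid
  set B := badD V F P with hB
  have hsub : F \ P ⊆ Rr V F P ∪ (Lid ∪ Lid.image Prod.swap) ∪ (B ∪ B.image Prod.swap) := by
    rintro ⟨a, b⟩ hab
    obtain ⟨hF, hnP⟩ := Finset.mem_sdiff.1 hab
    have hba : (b, a) ∈ F \ P := Finset.mem_sdiff.2 ⟨h.symm hF, fun hh => hnP (hPs _ _ hh)⟩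
    by_cases hL1 : (a, b) ∈ Lf V F
    · by_cases hL2 : (b, a) ∈ Lf V F
      · obtain ⟨-, x, hx, hxp⟩ := mem_Lf.1 hL1
        obtain ⟨-, y, hy, hyp⟩ := mem_Lf.1 hL2
        obtain ⟨c, hc⟩ := h.exists_face hF hx hxp
        obtain ⟨d, hd⟩ := h.exists_face (h.symm hF) hy hyp
        by_cases g2 : 0 < det c a d
        · by_cases g1 : 0 < det d b c
          · apply Finset.mem_union_left; apply Finset.mem_union_left
            exact Finset.mem_filter.2 ⟨hab, c, d, hc, hd, g1, g2⟩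
          · apply Finset.mem_union_right; apply Finset.mem_union_right
            refine Finset.mem_image.2 ⟨(b, a), ?_, rfl⟩
            rw [hB, badD, Finset.mem_filter]
            exact ⟨h.symm hF, (Finset.mem_sdiff.1 hba).2, hL2, hL1,
              h.bad_of_not_flip hd hc (not_lt.1 g1)⟩
        · apply Finset.mem_union_right; apply Finset.mem_union_left
          rw [hB, badD, Finset.mem_filter]
          exact ⟨hF, hnP, hL1, hL2, h.bad_of_not_flip hc hd (not_lt.1 g2)⟩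
      · apply Finset.mem_union_left; apply Finset.mem_union_right
        apply Finset.mem_union_right
        exact Finset.mem_image.2 ⟨(b, a), Finset.mem_sdiff.2 ⟨hba, hL2⟩, rfl⟩
    · apply Finset.mem_union_left; apply Finset.mem_union_right
      apply Finset.mem_union_left
      exact Finset.mem_sdiff.2 ⟨hab, hL1⟩
  have h1 := Finset.card_le_card hsub
  have h2 := Finset.card_union_le (Rr V F P ∪ (Lid ∪ Lid.image Prod.swap))
    (B ∪ B.image Prod.swap)
  have h3 := Finset.card_union_le (Rr V F P) (Lid ∪ Lid.image Prod.swap)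
  have h4 := Finset.card_union_le Lid (Lid.image Prod.swap)
  have h5 := Finset.card_union_le B (B.image Prod.swap)
  have h6 : (Lid.image Prod.swap).card ≤ Lid.card := Finset.card_image_le
  have h7 : (B.image Prod.swap).card ≤ B.card := Finset.card_image_le
  omega

/-- existence of a maximal family -/
theorem exists_Fam (V : Finset Pt) (P : Finset (Pt × Pt))
    (mem : ∀ a b, (a, b) ∈ P → a ∈ V) (symm : ∀ a b, (a, b) ∈ P → (b, a) ∈ P)
    (ne : ∀ a b, (a, b) ∈ P → a ≠ b)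
    (prim : ∀ a b x, (a, b) ∈ P → x ∈ V → x ∉ openSegment ℝ a b)
    (nc : ∀ a b c d z, (a, b) ∈ P → (c, d) ∈ P → z ∈ openSegment ℝ a b →
      z ∈ openSegment ℝ c d → (c = a ∧ d = b) ∨ (c = b ∧ d = a)) :
    ∃ F, Fam V F ∧ P ⊆ F := by
  set good : Finset (Pt × Pt) → Prop := fun F => P ⊆ F ∧ (∀ a b, (a, b) ∈ F → a ∈ V) ∧
    (∀ a b, (a, b) ∈ F → (b, a) ∈ F) ∧ (∀ a b, (a, b) ∈ F → a ≠ b) ∧
    (∀ a b x, (a, b) ∈ F → x ∈ V → x ∉ openSegment ℝ a b) ∧
    (∀ a b c d z, (a, b) ∈ F → (c, d) ∈ F → z ∈ openSegment ℝ a b →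
      z ∈ openSegment ℝ c d → (c = a ∧ d = b) ∨ (c = b ∧ d = a)) with hgood
  have hPg : good P := ⟨fun _ h => h, mem, symm, ne, prim, nc⟩
  have hsubV : ∀ F, good F → F ⊆ V ×ˢ V := by
    rintro F hF ⟨a, b⟩ hab
    exact Finset.mem_product.2 ⟨hF.2.1 a b hab, hF.2.1 b a (hF.2.2.1 a b hab)⟩
  obtain ⟨F, hF, hmax⟩ := Finset.exists_max_image ((V ×ˢ V).powerset.filter good)
    (fun F => F.card) ⟨P, Finset.mem_filter.2 ⟨Finset.mem_powerset.2 (hsubV P hPg), hPg⟩⟩
  obtain ⟨-, hFg⟩ := Finset.mem_filter.1 hF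
  refine ⟨F, ?_, hFg.1⟩
  obtain ⟨g1, g2, g3, g4, g5, g6⟩ := hFg
  refine ⟨fun {a b} => g2 a b, fun {a b} => g3 a b, fun {a b} => g4 a b,
    fun {a b x} => g5 a b x, fun {a b c d z} => g6 a b c d z, ?_⟩
  intro x y hx hy hxy hV hcr
  by_contra hnot
  have hnot' : (y, x) ∉ F := fun hh => hnot (g3 _ _ hh)
  set F' := insert (x, y) (insert (y, x) F) with hF'
  have hmem : ∀ a b, (a, b) ∈ F' ↔ (a = x ∧ b = y) ∨ (a = y ∧ b = x) ∨ (a, b) ∈ F := by
    intro a b; simp [hF']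
  have hg : good F' := by
    refine ⟨?_, ?_, ?_, ?_, ?_, ?_⟩
    · intro e he
      exact Finset.mem_insert_of_mem (Finset.mem_insert_of_mem (g1 he))
    · intro a b hab
      rcases (hmem a b).1 hab with ⟨rfl, rfl⟩ | ⟨rfl, rfl⟩ | hab
      · exact hx
      · exact hy
      · exact g2 a b hab
    · intro a b hab
      rcases (hmem a b).1 hab with ⟨rfl, rfl⟩ | ⟨rfl, rfl⟩ | hab
      · exact (hmem _ _).2 (Or.inr (Or.inl ⟨rfl, rfl⟩))
      · exact (hmem _ _).2 (Or.inl ⟨rfl, rfl⟩)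
      · exact (hmem _ _).2 (Or.inr (Or.inr (g3 a b hab)))
    · intro a b hab
      rcases (hmem a b).1 hab with ⟨rfl, rfl⟩ | ⟨rfl, rfl⟩ | hab
      · exact hxy
      · exact hxy.symm
      · exact g4 a b hab
    · intro a b z hab hz
      rcases (hmem a b).1 hab with ⟨rfl, rfl⟩ | ⟨rfl, rfl⟩ | hab
      · exact hV z hz
      · rw [openSegment_symm]; exact hV z hz
      · exact g5 a b z hab hz
    · intro a b c d z hab0 hcd hz hz'
      rcases (hmem a b).1 hab0 with ⟨rfl, rfl⟩ | ⟨rfl, rfl⟩ | hab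
      · rcases (hmem c d).1 hcd with ⟨rfl, rfl⟩ | ⟨rfl, rfl⟩ | hcd
        · exact Or.inl ⟨rfl, rfl⟩
        · exact Or.inr ⟨rfl, rfl⟩
        · exact absurd hz' (hcr c d hcd z hz)
      · rw [openSegment_symm] at hz
        rcases (hmem c d).1 hcd with ⟨rfl, rfl⟩ | ⟨rfl, rfl⟩ | hcd
        · exact Or.inr ⟨rfl, rfl⟩
        · exact Or.inl ⟨rfl, rfl⟩
        · exact absurd hz' (hcr c d hcd z hz)
      · rcases (hmem c d).1 hcd with ⟨rfl, rfl⟩ | ⟨rfl, rfl⟩ | hcd
        · exact absurd hz (hcr a b hab z hz')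
        · rw [openSegment_symm] at hz'
          exact absurd hz (hcr a b hab z hz')
        · exact g6 a b c d z hab hcd hz hz'
  have hle := hmax F' (Finset.mem_filter.2 ⟨Finset.mem_powerset.2 (hsubV F' hg), hg⟩)
  have h1 : (insert (y, x) F).card = F.card + 1 := Finset.card_insert_of_notMem hnot'
  have h2 : F'.card = (insert (y, x) F).card + 1 := by
    rw [hF']
    apply Finset.card_insert_of_notMem
    rw [Finset.mem_insert]
    rintro (h | h)
    · exact hxy (Prod.mk.inj h).1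
    · exact hnot h
  omega

end Pool.Agent.H134.Dg
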